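import Pool.Agent.W564.MY.Defs

set_option autoImplicit false

namespace Pool.Agent.W596.MY

open MeasureTheory Filter Topology Pool.Agent.W564.MY
open scoped ENNReal

lemma two_mul_le_sq_add (a b : ℝ≥0∞) : 2 * (a * b) ≤ a ^ 2 + b ^ 2 := by
  rcases eq_or_ne a ⊤ with rfl | ha
  · simp
  rcases eq_or_ne b ⊤ with rfl | hb
  · simp
  lift a to NNReal using ha
  lift b to NNReal using hb
  norm_cast
  have := two_mul_le_add_sq (a : ℝ) (b : ℝ)
  have h : (2 : ℝ) * (a * b) ≤ a ^ 2 + b ^ 2 := by linarith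
  exact_mod_cast h

/-- the abstract inequality -/
lemma key {P Y X : Type} [MeasurableSpace P] [MeasurableSpace Y] [MeasurableSpace X]
    (l : Measure P) [SFinite l] (μ : Measure X) [IsProbabilityMeasure μ] {N : ℕ}
    (ξ : Fin N → X → Y) (hξ : ∀ i, Measurable (ξ i)) (ν : Measure Y) [SFinite ν]
    (hν : ∀ g : Y → ℝ≥0∞, Measurable g → ∑ i, ∫⁻ x, g (ξ i x) ∂μ = ∫⁻ y, g y ∂ν)
    (k : P → Y → ℝ≥0∞) (hk : Measurable (Function.uncurry k)) :
    2 * ∫⁻ y, ∫⁻ y', (∫⁻ p, k p y * k p y' ∂l) ∂ν ∂ν ≤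
      (∑ i, ∑ j, ∫⁻ x, (∫⁻ p, k p (ξ i x) * k p (ξ j x) ∂l) ∂μ) +
        ∫⁻ y, ∫⁻ y', (∫⁻ p, k p y * k p y' ∂l) ∂ν ∂ν := by
  have hkp : ∀ p, Measurable (k p) := fun p => hk.comp (measurable_const.prodMk measurable_id)
  set φ : P → ℝ≥0∞ := fun p => ∫⁻ y, k p y ∂ν with hφ
  have hφm : Measurable φ := Measurable.lintegral_prod_right' (f := fun q : P × Y => k q.1 q.2) hk
  have hD : ∫⁻ y, ∫⁻ y', (∫⁻ p, k p y * k p y' ∂l) ∂ν ∂ν = ∫⁻ p, φ p ^ 2 ∂l := by
    have h1 : ∀ y, ∫⁻ y', (∫⁻ p, k p y * k p y' ∂l) ∂ν = ∫⁻ p, k p y * φ p ∂l := by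
      intro y
      rw [lintegral_lintegral_swap]
      · refine lintegral_congr fun p => ?_
        rw [lintegral_const_mul _ (hkp p)]
      · refine Measurable.aemeasurable ?_
        have e1 : Measurable fun q : Y × P => k q.2 y := hk.comp (measurable_snd.prodMk measurable_const)
        have e2 : Measurable fun q : Y × P => k q.2 q.1 := hk.comp (measurable_snd.prodMk measurable_fst)
        exact e1.mul e2
    simp_rw [h1]
    rw [lintegral_lintegral_swap]
    · refine lintegral_congr fun p => ?_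
      rw [lintegral_mul_const _ (hkp p), sq]
    · refine Measurable.aemeasurable ?_
      have e2 : Measurable fun q : Y × P => k q.2 q.1 := hk.comp (measurable_snd.prodMk measurable_fst)
      exact e2.mul (hφm.comp measurable_snd)
  rw [hD]
  have hpt : ∀ p, 2 * φ p ^ 2 ≤ (∫⁻ x, (∑ i, k p (ξ i x)) ^ 2 ∂μ) + φ p ^ 2 := by
    intro p
    have hm : Measurable fun x => ∑ i, k p (ξ i x) :=
      Finset.measurable_sum _ fun i _ => (hkp p).comp (hξ i)
    have h1 : ∫⁻ x, (∑ i, k p (ξ i x)) ∂μ = φ p := by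
      rw [lintegral_finsetSum (f := fun i x => k p (ξ i x)) _ (fun i _ => (hkp p).comp (hξ i))]
      exact hν _ (hkp p)
    calc 2 * φ p ^ 2 = ∫⁻ x, 2 * ((∑ i, k p (ξ i x)) * φ p) ∂μ := by
          rw [lintegral_const_mul _ (hm.mul_const _), lintegral_mul_const _ hm, h1, sq]
      _ ≤ ∫⁻ x, ((∑ i, k p (ξ i x)) ^ 2 + φ p ^ 2) ∂μ :=
          lintegral_mono fun x => two_mul_le_sq_add _ _
      _ = (∫⁻ x, (∑ i, k p (ξ i x)) ^ 2 ∂μ) + φ p ^ 2 := by
          rw [lintegral_add_right _ measurable_const]; simp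
  have hij : ∀ i j, Measurable fun q : P × X => k q.1 (ξ i q.2) * k q.1 (ξ j q.2) := by
    intro i j
    have e1 : ∀ i, Measurable fun q : P × X => k q.1 (ξ i q.2) := fun i =>
      hk.comp (measurable_fst.prodMk ((hξ i).comp measurable_snd))
    exact (e1 i).mul (e1 j)
  have hsq : ∫⁻ p, (∫⁻ x, (∑ i, k p (ξ i x)) ^ 2 ∂μ) ∂l =
      ∑ i, ∑ j, ∫⁻ x, (∫⁻ p, k p (ξ i x) * k p (ξ j x) ∂l) ∂μ := by
    have h2 : ∀ p, (∫⁻ x, (∑ i, k p (ξ i x)) ^ 2 ∂μ) =
        ∑ i, ∑ j, ∫⁻ x, k p (ξ i x) * k p (ξ j x) ∂μ := by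
      intro p
      have e : ∀ x, (∑ i, k p (ξ i x)) ^ 2 = ∑ i, ∑ j, k p (ξ i x) * k p (ξ j x) := by
        intro x; rw [sq, Finset.sum_mul_sum]
      simp_rw [e]
      have hm : ∀ i j, Measurable fun x => k p (ξ i x) * k p (ξ j x) := fun i j =>
        ((hkp p).comp (hξ i)).mul ((hkp p).comp (hξ j))
      rw [lintegral_finsetSum _ (fun i _ => Finset.measurable_sum _ fun j _ => hm i j)]
      refine Finset.sum_congr rfl fun i _ => ?_
      rw [lintegral_finsetSum _ (fun j _ => hm i j)]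
    simp_rw [h2]
    have hm2 : ∀ i j, Measurable fun p => ∫⁻ x, k p (ξ i x) * k p (ξ j x) ∂μ := fun i j =>
      Measurable.lintegral_prod_right' (f := fun q : P × X => k q.1 (ξ i q.2) * k q.1 (ξ j q.2)) (hij i j)
    rw [lintegral_finsetSum _ (fun i _ => Finset.measurable_sum _ fun j _ => hm2 i j)]
    refine Finset.sum_congr rfl fun i _ => ?_
    rw [lintegral_finsetSum _ (fun j _ => hm2 i j)]
    refine Finset.sum_congr rfl fun j _ => ?_
    exact lintegral_lintegral_swap (hij i j).aemeasurable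
  calc 2 * ∫⁻ p, φ p ^ 2 ∂l = ∫⁻ p, 2 * φ p ^ 2 ∂l := by
        rw [lintegral_const_mul _ (hφm.pow_const 2)]
    _ ≤ ∫⁻ p, ((∫⁻ x, (∑ i, k p (ξ i x)) ^ 2 ∂μ) + φ p ^ 2) ∂l := lintegral_mono hpt
    _ = _ := by rw [lintegral_add_right _ (hφm.pow_const 2), hsq]


/-- truncated window -/
noncomputable def ch {d : ℕ} (χ : ℝ → E d → ℝ) (m : ℕ) (r : ℝ) (t : E d) : ℝ≥0∞ :=
  if r ∈ Set.Ioc (0 : ℝ) m ∧ ‖t‖ ≤ m then ENNReal.ofReal (min (χ r t) m) else 0

lemma measurable_ch {d : ℕ} {χ : ℝ → E d → ℝ} (hχ : Measurable fun p : ℝ × E d => χ p.1 p.2)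
    (m : ℕ) : Measurable fun p : ℝ × E d => ch χ m p.1 p.2 := by
  unfold ch
  refine Measurable.ite ?_ ((hχ.min measurable_const).ennreal_ofReal) measurable_const
  refine MeasurableSet.inter ?_ ?_
  · exact measurable_fst measurableSet_Ioc
  · exact measurableSet_le measurable_snd.norm measurable_const

lemma ch_neg {d : ℕ} {χ : ℝ → E d → ℝ} (hev : ∀ r x, χ r (-x) = χ r x) (m : ℕ) (r : ℝ) (t : E d) :
    ch χ m r (-t) = ch χ m r t := by
  simp [ch, hev]

/-- the convolution form of the truncated interaction -/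
lemma wm_eq {d : ℕ} {χ : ℝ → E d → ℝ} (hχ0 : ∀ r x, 0 ≤ χ r x) (m : ℕ) (x : E d) :
    (∫⁻ r in Set.Ioc (0 : ℝ) m, ∫⁻ y in {y : E d | ‖y‖ ≤ m ∧ ‖x - y‖ ≤ m},
      ENNReal.ofReal (min (χ r y) m * min (χ r (x - y)) m)) =
      ∫⁻ r : ℝ, ∫⁻ t : E d, ch χ m r t * ch χ m r (x - t) := by
  rw [← lintegral_indicator measurableSet_Ioc]
  refine lintegral_congr fun r => ?_
  by_cases hr : r ∈ Set.Ioc (0 : ℝ) m
  · rw [Set.indicator_of_mem hr, ← lintegral_indicator]
    · refine lintegral_congr fun t => ?_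
      by_cases h1 : ‖t‖ ≤ m ∧ ‖x - t‖ ≤ m
      · rw [Set.indicator_of_mem (by exact h1), ENNReal.ofReal_mul (le_min (hχ0 _ _) (by positivity))]
        simp [ch, hr.1, hr.2, h1.1, h1.2]
      · rw [Set.indicator_of_notMem (by exact h1)]
        rw [not_and_or] at h1
        rcases h1 with h1 | h1 <;> simp [ch, h1]
    · refine MeasurableSet.inter ?_ ?_
      · exact measurableSet_le measurable_norm measurable_const
      · exact measurableSet_le (measurable_const.sub measurable_id).norm measurable_const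
  · rw [Set.indicator_of_notMem hr]
    have : ∀ t, ch χ m r t = 0 := fun t => by simp only [ch]; rw [if_neg]; tauto
    simp [this]

lemma wm_sub {d : ℕ} {χ : ℝ → E d → ℝ} (hχ : Measurable fun p : ℝ × E d => χ p.1 p.2)
    (hev : ∀ r x, χ r (-x) = χ r x) (m : ℕ) (x y : E d) :
    (∫⁻ r : ℝ, ∫⁻ t : E d, ch χ m r t * ch χ m r (x - y - t)) =
      ∫⁻ p : ℝ × E d, ch χ m p.1 (x - p.2) * ch χ m p.1 (y - p.2) := by
  have hm := measurable_ch hχ m
  rw [Measure.volume_eq_prod, lintegral_prod]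
  · refine lintegral_congr fun r => ?_
    rw [← lintegral_sub_left_eq_self _ x]
    refine lintegral_congr fun z => ?_
    have e : x - y - (x - z) = -(y - z) := by abel
    rw [e, ch_neg hev]
  · refine Measurable.aemeasurable ?_
    have e1 : ∀ x : E d, Measurable fun p : ℝ × E d => ch χ m p.1 (x - p.2) := fun x =>
      hm.comp (measurable_fst.prodMk (measurable_const.sub measurable_snd))
    exact (e1 x).mul (e1 y)

/-- the truncated interaction is bounded -/
lemma wm_bdd {d : ℕ} (χ : ℝ → E d → ℝ) (m : ℕ) :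
    ∃ C : ℝ≥0∞, C ≠ ⊤ ∧ ∀ x : E d, (∫⁻ r : ℝ, ∫⁻ t : E d, ch χ m r t * ch χ m r (x - t)) ≤ C := by
  refine ⟨∫⁻ r in Set.Ioc (0 : ℝ) m, ∫⁻ t in Metric.closedBall (0 : E d) m, (m : ℝ≥0∞) * m, ?_, ?_⟩
  · simp only [lintegral_const, Measure.restrict_apply MeasurableSet.univ, Set.univ_inter]
    refine ENNReal.mul_ne_top (ENNReal.mul_ne_top (by finiteness) ?_) ?_
    · exact measure_closedBall_lt_top.ne
    · simp
  · intro x
    rw [← lintegral_indicator measurableSet_Ioc]
    refine lintegral_mono fun r => ?_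
    have hle : ∀ t, ch χ m r t ≤ m := by
      intro t
      unfold ch
      split_ifs
      · refine (ENNReal.ofReal_le_ofReal (min_le_right _ _)).trans ?_
        simp
      · simp
    by_cases hr : r ∈ Set.Ioc (0 : ℝ) m
    · rw [Set.indicator_of_mem hr, ← lintegral_indicator Metric.isClosed_closedBall.measurableSet]
      refine lintegral_mono fun t => ?_
      by_cases ht : t ∈ Metric.closedBall (0 : E d) m
      · rw [Set.indicator_of_mem ht]
        exact mul_le_mul' (hle _) (hle _)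
      · rw [Set.indicator_of_notMem ht]
        have : ch χ m r t = 0 := by
          simp only [ch]; rw [if_neg]; rintro ⟨_, h⟩; exact ht (by simpa using h)
        simp [this]
    · rw [Set.indicator_of_notMem hr]
      have : ∀ t, ch χ m r t = 0 := fun t => by simp only [ch]; rw [if_neg]; tauto
      simp [this]


/-- differences of two particles are nonsingular -/
lemma ae_diff {N d : ℕ} {P : E d → Prop} (h : ∀ᵐ x : E d, P x) {i j : Fin N} (hij : i ≠ j) :
    ∀ᵐ x : Fin N → E d, P (x i - x j) := by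
  let L : (Fin N → E d) →ₗ[ℝ] E d :=
    (LinearMap.proj i : (Fin N → E d) →ₗ[ℝ] E d) - LinearMap.proj j
  have hL : Function.Surjective L := by
    intro y
    refine ⟨Pi.single i y, ?_⟩
    simp [L, hij.symm]
  set s : Set (E d) := (toMeasurable volume {x | ¬ P x})ᶜ with hs
  have hsm : MeasurableSet s := (measurableSet_toMeasurable _ _).compl
  have hs1 : ∀ᵐ y : E d, y ∈ s := by
    rw [ae_iff]
    have : {a | a ∉ s} = toMeasurable volume {x | ¬ P x} := by
      ext x; simp [hs]
    rw [this, measure_toMeasurable]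
    exact h
  have h2 := (ae_comp_linearMap_mem_iff (L := L) (μ := (volume : Measure (Fin N → E d)))
    (ν := (volume : Measure (E d))) hL hsm).2 hs1
  filter_upwards [h2] with x hx
  by_contra hP
  apply hx
  exact subset_toMeasurable _ _ hP

lemma sum_tri {N : ℕ} (a : Fin N → Fin N → ℝ≥0∞) (hs : ∀ i j, a i j = a j i) (c : ℝ≥0∞)
    (hc : ∀ i, a i i = c) :
    ∑ i, ∑ j, a i j = 2 * (∑ i, ∑ j, if i < j then a i j else 0) + N * c := by
  have h : ∀ i j, a i j = ((if i < j then a i j else 0) + (if j < i then a i j else 0)) +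
      (if i = j then c else 0) := by
    intro i j
    rcases lt_trichotomy i j with h | h | h
    · simp [h, h.not_gt, h.ne]
    · subst h; simp [hc]
    · simp [h, h.not_gt, h.ne']
  have h1 : ∑ i, ∑ j, a i j = (∑ i, ∑ j, (if i < j then a i j else 0)) +
      (∑ i, ∑ j, (if j < i then a i j else 0)) + ∑ i : Fin N, ∑ j, (if i = j then c else 0) := by
    rw [← Finset.sum_add_distrib, ← Finset.sum_add_distrib]
    refine Finset.sum_congr rfl fun i _ => ?_
    rw [← Finset.sum_add_distrib, ← Finset.sum_add_distrib]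
    exact Finset.sum_congr rfl fun j _ => h i j
  have h2 : (∑ i, ∑ j, (if j < i then a i j else 0)) = ∑ i, ∑ j, (if i < j then a i j else 0) := by
    rw [Finset.sum_comm]
    refine Finset.sum_congr rfl fun i _ => Finset.sum_congr rfl fun j _ => ?_
    rw [hs]
  rw [h1, h2, two_mul]
  simp

theorem s_int : S_int := by
  intro N d Ψ hΨ hnorm ρ hρ hρ0 hdens χ hχ hχ0 hev w hw hwint m wm hwm
  set F : (Fin N → E d) → ℝ≥0∞ := fun x => ENNReal.ofReal (‖Ψ x‖ ^ 2) with hF
  have hFm : AEMeasurable F volume :=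
    (hΨ.aestronglyMeasurable.norm.aemeasurable.pow_const 2).ennreal_ofReal
  have hF1 : ∫⁻ x, F x = 1 := by
    have hint : Integrable (fun x => ‖Ψ x‖ ^ 2) volume := by
      by_contra h
      rw [integral_undef h] at hnorm
      norm_num at hnorm
    rw [← ofReal_integral_eq_lintegral_ofReal hint (Eventually.of_forall fun x => by positivity), hnorm]
    simp
  set μ : Measure (Fin N → E d) := volume.withDensity F with hμ
  haveI : IsProbabilityMeasure μ := ⟨by rw [hμ, withDensity_apply _ MeasurableSet.univ]; simpa using hF1⟩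
  set ν : Measure (E d) := volume.withDensity (fun x => ENNReal.ofReal (ρ x)) with hν
  have hνsum : ∑ i : Fin N, μ.map (fun x => x i) = ν := by
    ext A hA
    rw [Measure.finset_sum_apply, hν, withDensity_apply _ hA, ← hdens A hA]
    refine Finset.sum_congr rfl fun i _ => ?_
    rw [Measure.map_apply (measurable_pi_apply i) hA, hμ, withDensity_apply _ (measurable_pi_apply i hA)]
    rfl
  have hνint : ∀ g : E d → ℝ≥0∞, Measurable g → ∑ i, ∫⁻ x, g (x i) ∂μ = ∫⁻ y, g y ∂ν := by
    intro g hg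
    rw [← hνsum, lintegral_finset_sum_measure]
    refine Finset.sum_congr rfl fun i _ => ?_
    rw [lintegral_map hg (measurable_pi_apply i)]
  have hνuniv : ν Set.univ = N := by
    rw [← hνsum, Measure.finset_sum_apply]
    have : ∀ i : Fin N, (μ.map (fun x => x i)) Set.univ = 1 := by
      intro i
      rw [Measure.map_apply (measurable_pi_apply i) MeasurableSet.univ]
      simp
    simp [this]
  set k : (ℝ × E d) → E d → ℝ≥0∞ := fun p y => ch χ m p.1 (y - p.2) with hk
  have hkm : Measurable (Function.uncurry k) := by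
    have := measurable_ch hχ m
    exact this.comp ((measurable_fst.comp measurable_fst).prodMk
      (measurable_snd.sub (measurable_snd.comp measurable_fst)))
  have hWm : ∀ x, wm x = ∫⁻ r : ℝ, ∫⁻ t : E d, ch χ m r t * ch χ m r (x - t) := by
    intro x; rw [hwm, wm_eq hχ0]
  have hW : ∀ x y, wm (x - y) = ∫⁻ p, k p x * k p y := by
    intro x y
    rw [hWm, wm_sub hχ hev]
  have hkey := key (volume : Measure (ℝ × E d)) μ (fun i x => x i) (fun i => measurable_pi_apply i) ν
    hνint k hkm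
  simp_rw [← hW] at hkey
  set D := ∫⁻ y, ∫⁻ y', wm (y - y') ∂ν ∂ν with hD
  obtain ⟨C, hC, hCb⟩ := wm_bdd χ m
  have hDfin : D ≠ ⊤ := by
    have : D ≤ C * N * N := by
      calc D ≤ ∫⁻ y, ∫⁻ y', C ∂ν ∂ν := lintegral_mono fun y => lintegral_mono fun y' => by
            rw [hWm]; exact hCb _
        _ = C * N * N := by simp [hνuniv]
    exact ne_top_of_le_ne_top (by finiteness) this
  have hD1 : D ≤ ∑ i, ∑ j, ∫⁻ x, wm (x i - x j) ∂μ := by
    rw [two_mul] at hkey
    exact (ENNReal.add_le_add_iff_right hDfin).1 hkey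
  have hsymm : ∀ x y, wm (x - y) = wm (y - x) := by
    intro x y
    rw [hW, hW]
    exact lintegral_congr fun p => mul_comm _ _
  rw [sum_tri (fun i j => ∫⁻ x, wm (x i - x j) ∂μ)
    (fun i j => lintegral_congr fun x => hsymm _ _) (wm 0) (fun i => by simp)] at hD1
  have hDeq : ∫⁻ x, ∫⁻ y, wm (x - y) * ENNReal.ofReal (ρ x) * ENNReal.ofReal (ρ y) = D := by
    rw [hD, hν, lintegral_withDensity_eq_lintegral_mul_non_measurable₀ _ hρ.ennreal_ofReal.aemeasurable
      (Eventually.of_forall fun x => ENNReal.ofReal_lt_top)]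
    refine lintegral_congr fun x => ?_
    simp only [Pi.mul_apply]
    rw [lintegral_withDensity_eq_lintegral_mul_non_measurable₀ _ hρ.ennreal_ofReal.aemeasurable
      (Eventually.of_forall fun x => ENNReal.ofReal_lt_top), ← lintegral_const_mul' _ _ ENNReal.ofReal_ne_top]
    refine lintegral_congr fun y => ?_
    simp only [Pi.mul_apply]
    ring
  have hwle : ∀ᵐ x : E d, wm x ≤ ENNReal.ofReal (w x) := by
    filter_upwards [hwint] with x hx
    rw [hx, hwm]
    refine (lintegral_mono_set (fun r hr => hr.1)).trans ?_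
    refine lintegral_mono fun r => ?_
    refine (setLIntegral_le_lintegral _ _).trans ?_
    refine lintegral_mono fun y => ?_
    refine ENNReal.ofReal_le_ofReal ?_
    exact mul_le_mul (min_le_left _ _) (min_le_left _ _) (le_min (hχ0 _ _) (by positivity)) (hχ0 _ _)
  have hT : ∀ i j : Fin N, (if i < j then ∫⁻ x, wm (x i - x j) ∂μ else 0) ≤
      (if i < j then ∫⁻ x : Fin N → E d, ENNReal.ofReal (w (x i - x j)) * ENNReal.ofReal (‖Ψ x‖ ^ 2)
        else 0) := by
    intro i j
    split_ifs with h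
    · rw [hμ]
      have h1 : ∫⁻ x, wm (x i - x j) ∂(volume.withDensity F) ≤
          ∫⁻ x, ENNReal.ofReal (w (x i - x j)) ∂(volume.withDensity F) := by
        refine lintegral_mono_ae ?_
        exact (withDensity_absolutelyContinuous _ _).ae_le (ae_diff hwle h.ne)
      refine h1.trans_eq ?_
      rw [lintegral_withDensity_eq_lintegral_mul_non_measurable₀ _ hFm
        (Eventually.of_forall fun x => ENNReal.ofReal_lt_top)]
      refine lintegral_congr fun x => ?_
      simp only [Pi.mul_apply, hF]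
      ring
    · exact le_rfl
  rw [hDeq]
  calc 2⁻¹ * D ≤ 2⁻¹ * (2 * (∑ i : Fin N, ∑ j, if i < j then ∫⁻ x, wm (x i - x j) ∂μ else 0) + N * wm 0) :=
        mul_le_mul_right hD1 _
    _ ≤ 2⁻¹ * (2 * (∑ i : Fin N, ∑ j : Fin N, (if i < j then
              ∫⁻ x : Fin N → E d, ENNReal.ofReal (w (x i - x j)) *
                ENNReal.ofReal (‖Ψ x‖ ^ 2) else 0)) + N * wm 0) := by
        gcongr with i _ j _
        exact hT i j
    _ = _ := by
        rw [mul_add, ← mul_assoc, ← mul_assoc, ENNReal.inv_mul_cancel (by norm_num) (by norm_num), one_mul]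

end Pool.Agent.W596.MY
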