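import Pool.Agent.W596.MY.Lattice

set_option autoImplicit false

namespace Pool.Agent.W596.MY

open MeasureTheory Filter Topology Pool.Agent.W564.MY Metric
open scoped ENNReal RealInnerProductSpace

noncomputable def r0 (d : ℕ) : ℝ := 2 * Real.pi * ballVol d ^ (-(1 : ℝ) / d)

lemma r0_pos (d : ℕ) : 0 < r0 d := by
  have := ballVol_pos d
  unfold r0; positivity

lemma r0_pow {d : ℕ} (hd : 1 ≤ d) : r0 d ^ d = (2 * Real.pi) ^ d / ballVol d := by
  have hb := ballVol_pos d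
  have hd0 : (d : ℝ) ≠ 0 := by positivity
  rw [r0, mul_pow, ← Real.rpow_natCast (ballVol d ^ _), ← Real.rpow_mul hb.le]
  rw [show -(1 : ℝ) / d * d = -1 by field_simp, Real.rpow_neg_one]
  rfl

lemma r0_sq (d : ℕ) : r0 d ^ 2 = 4 * Real.pi ^ 2 * ballVol d ^ (-(2 : ℝ) / d) := by
  have hb := ballVol_pos d
  rw [r0, mul_pow, ← Real.rpow_natCast (ballVol d ^ _), ← Real.rpow_mul hb.le]
  rw [show -(1 : ℝ) / d * (2 : ℕ) = -(2 : ℝ) / d by push_cast; ring]
  ring

lemma kcl_eq {d : ℕ} (hd : 1 ≤ d) :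
    ballVol d / ((2 * Real.pi) ^ d * (d + 2)) * r0 d ^ (d + 2) = Kcl d / d := by
  have hb := ballVol_pos d
  have hd0 : (d : ℝ) ≠ 0 := by positivity
  rw [pow_add, r0_pow hd, r0_sq, Kcl]
  have hp := Real.pi_pos
  field_simp

lemma kcl_lim {d : ℕ} (hd : 1 ≤ d) (δ : ℝ) :
    Tendsto (fun N : ℕ => ballVol d / ((2 * Real.pi) ^ d * (d + 2)) *
      (r0 d + 2 * δ / (N : ℝ) ^ ((1 : ℝ) / d)) ^ (d + 2)) atTop (𝓝 (Kcl d / d)) := by
  rw [← kcl_eq hd]
  have h1 : Tendsto (fun N : ℕ => (N : ℝ) ^ ((1 : ℝ) / d)) atTop atTop :=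
    (tendsto_rpow_atTop (by positivity)).comp tendsto_natCast_atTop_atTop
  have h2 : Tendsto (fun N : ℕ => 2 * δ / (N : ℝ) ^ ((1 : ℝ) / d)) atTop (𝓝 0) :=
    Tendsto.div_atTop tendsto_const_nhds h1
  have h3 := ((h2.const_add (r0 d)).pow (d + 2)).const_mul (ballVol d / ((2 * Real.pi) ^ d * (d + 2)))
  simpa using h3

lemma finite_K {d : ℕ} {A : Matrix (Fin d) (Fin d) ℝ} (hA : A.det = 1) {len : Fin d → ℝ}
    (hl : ∀ j, 0 < len j) (hl1 : ∀ j, len j ≤ 1) (ρ : ℝ) :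
    {k : Fin d → ℤ | ‖T A (kap len k)‖ < ρ}.Finite := by
  obtain ⟨β, hβ0, hβ⟩ := T_lower hA
  set M : ℤ := ⌈β * ρ⌉ with hM
  refine (Set.finite_Icc (fun _ : Fin d => -M) (fun _ => M)).subset ?_
  intro k hk
  rw [Set.mem_ofPred_eq] at hk
  have h1 : ‖kap len k‖ ≤ β * ρ := (hβ _).trans (by gcongr)
  have h2 : ∀ j, |(k j : ℝ)| ≤ β * ρ := by
    intro j
    have h3 := (norm_le_pi_norm (kap len k) j).trans h1
    rw [Real.norm_eq_abs, kap, abs_div, abs_mul, abs_of_pos (hl j), abs_of_pos (by positivity)] at h3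
    refine le_trans ?_ h3
    rw [le_div_iff₀ (hl j)]
    have := Real.two_le_pi
    have h4 := hl j
    have h5 := hl1 j
    nlinarith [abs_nonneg (k j : ℝ), mul_nonneg (abs_nonneg (k j : ℝ)) h4.le]
  have h3 : ∀ j, |(k j : ℝ)| ≤ M := fun j => (h2 j).trans (Int.le_ceil _)
  rw [Set.mem_Icc, Pi.le_def, Pi.le_def]
  constructor
  · intro j
    have := (abs_le.1 (h3 j)).1
    exact_mod_cast this
  · intro j
    have := (abs_le.1 (h3 j)).2
    exact_mod_cast this

theorem s_lattice : S_lattice := by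
  intro d hd B hB lam hlam ε hε
  have hA : B⁻¹.det = 1 := by
    rw [Matrix.det_nonsing_inv, hB]; simp
  obtain ⟨α, hα0, hα⟩ := T_bound B⁻¹
  set δ : ℝ := α * (Real.pi / lam) with hδ
  have hδ0 : 0 ≤ δ := by positivity
  have hb := ballVol_pos d
  obtain ⟨N₀, hN₀⟩ := Filter.eventually_atTop.1
    ((kcl_lim hd δ).eventually (gt_mem_nhds (show Kcl d / d < Kcl d / d + ε by linarith)))
  refine ⟨max N₀ 1, fun N hN len hlen n hn => ?_⟩
  have hN1 : 1 ≤ N := le_trans (le_max_right _ _) hN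
  have hNlim := hN₀ N (le_trans (le_max_left _ _) hN)
  have hl : ∀ j, 0 < len j := fun j => hlam.trans_le (hlen j).1
  set L := ∏ j, len j with hL
  have hLpos : 0 < L := Finset.prod_pos fun j _ => hl j
  have hNpos : (0 : ℝ) < N := by exact_mod_cast hN1
  set s : ℝ := (N : ℝ) ^ ((1 : ℝ) / d) with hs
  have hspos : 0 < s := by positivity
  have hd0 : (d : ℝ) ≠ 0 := by positivity
  have hsd : s ^ d = N := by
    rw [hs, ← Real.rpow_natCast, ← Real.rpow_mul hNpos.le]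
    rw [one_div, inv_mul_cancel₀ hd0, Real.rpow_one]
  have hs2 : (N : ℝ) ^ (2 / (d : ℝ)) = s ^ 2 := by
    rw [hs, ← Real.rpow_natCast, ← Real.rpow_mul hNpos.le]
    congr 1
    push_cast; ring
  have hr0 := r0_pos d
  set ρ : ℝ := δ + r0 d * s with hρ
  set V : ℝ := (2 * Real.pi) ^ d / L with hV
  have hVpos : 0 < V := by positivity
  have hfin := finite_K hA hl (fun j => (hlen j).2) ρ
  set K' := hfin.toFinset with hK'
  have hmemK' : ∀ k, k ∈ K' ↔ ‖T B⁻¹ (kap len k)‖ < ρ := fun k => by simp [hK']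
  have hmp := T_mp hA
  have hcelld : ∀ k x, x ∈ cellc len k → ‖T B⁻¹ x - T B⁻¹ (kap len k)‖ ≤ δ := by
    intro k x hx
    rw [← map_sub]
    exact (hα _).trans (by rw [hδ]; gcongr; exact cell_dist hlam (fun j => (hlen j).1) hx)
  -- counting
  have hcount : (N : ℝ) * L ≤ K'.card := by
    have hcov : (T B⁻¹) ⁻¹' (ball (0 : EE d) (r0 d * s)) ⊆ ⋃ k ∈ K', cellc len k := by
      intro x hx
      obtain ⟨k, hk⟩ := exists_cell len hl x
      refine Set.mem_iUnion₂.2 ⟨k, ?_, hk⟩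
      rw [hmemK']
      have h1 := hcelld k x hk
      have h2 : ‖T B⁻¹ x‖ < r0 d * s := by simpa using hx
      have h3 : ‖T B⁻¹ (kap len k)‖ ≤ ‖T B⁻¹ x‖ + ‖T B⁻¹ x - T B⁻¹ (kap len k)‖ := by
        have := norm_sub_norm_le (T B⁻¹ (kap len k)) (T B⁻¹ x)
        rw [norm_sub_rev] at this
        linarith
      linarith
    have hvol1 : volume ((T B⁻¹) ⁻¹' (ball (0 : EE d) (r0 d * s))) =
        ENNReal.ofReal (ballVol d * (r0 d * s) ^ d) := by
      rw [hmp.measure_preimage measurableSet_ball.nullMeasurableSet,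
        Measure.addHaar_ball_of_pos _ _ (by positivity), ballVol_eq, Measure.real]
      simp only [finrank_euclideanSpace, Fintype.card_fin]
      rw [ENNReal.ofReal_mul ENNReal.toReal_nonneg, ENNReal.ofReal_toReal measure_ball_lt_top.ne, mul_comm]
    have hvol2 : volume (⋃ k ∈ K', cellc len k) ≤ K'.card * ENNReal.ofReal V := by
      refine (measure_biUnion_finset_le _ _).trans ?_
      simp_rw [vol_cellc len hl]
      simp [hV, hL]
    have h4 : ENNReal.ofReal (ballVol d * (r0 d * s) ^ d) ≤ ENNReal.ofReal (K'.card * V) := by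
      rw [← hvol1, ENNReal.ofReal_mul (by positivity), ENNReal.ofReal_natCast]
      exact (measure_mono hcov).trans hvol2
    rw [ENNReal.ofReal_le_ofReal_iff (by positivity)] at h4
    have h5 : ballVol d * (r0 d * s) ^ d = (2 * Real.pi) ^ d * N := by
      rw [mul_pow, r0_pow hd, hsd]; field_simp
    rw [h5, hV] at h4
    have hpd : 0 < (2 * Real.pi) ^ d := by positivity
    have h6 : (2 * Real.pi) ^ d * N ≤ (2 * Real.pi) ^ d * (K'.card / L) := by
      calc _ ≤ _ := h4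
        _ = _ := by ring
    have h7 := le_of_mul_le_mul_left h6 hpd
    rwa [le_div_iff₀ hLpos] at h7
  have hn' : n ≤ K'.card := by exact_mod_cast hn.trans hcount
  obtain ⟨K, hKK', hKc⟩ := Finset.exists_subset_card_eq hn'
  refine ⟨K, hKc, fun v => ?_⟩
  set w : EE d := WithLp.toLp 2 (fun m => ∑ j, B j m * v j) with hw
  have hwn : ∑ m, (∑ j, B j m * v j) ^ 2 = ‖w‖ ^ 2 := by
    rw [EuclideanSpace.norm_sq_eq]; simp [hw]
  have hR : 0 ≤ ρ + δ := by positivity
  have hcont : Continuous fun x : Fin d → ℝ => (∑ j, v j * x j) ^ 2 := by fun_prop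
  have hTm : MeasurableSet ((T B⁻¹) ⁻¹' (ball (0 : EE d) (ρ + δ))) := hmp.measurable measurableSet_ball
  have hTemb : MeasurableEmbedding (T B⁻¹) :=
    ((T B⁻¹).continuous_of_finiteDimensional).measurableEmbedding (T_inj hA)
  have hball : ∫ x in (T B⁻¹) ⁻¹' (ball (0 : EE d) (ρ + δ)), (∑ j, v j * x j) ^ 2 =
      ‖w‖ ^ 2 * (ballVol d * ((ρ + δ) ^ (d + 2) / (d + 2))) := by
    rw [← int_inner_sq hd hR w, ← hmp.setIntegral_preimage_emb hTemb]
    refine integral_congr_ae (Eventually.of_forall fun x => ?_)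
    simp only
    rw [inner_T hB]
  have hintball : IntegrableOn (fun x : Fin d → ℝ => (∑ j, v j * x j) ^ 2)
      ((T B⁻¹) ⁻¹' (ball (0 : EE d) (ρ + δ))) := by
    have h1 := intOn_ball (d := d) (f := fun y => ⟪w, y⟫ ^ 2) (by fun_prop) (ρ + δ)
    rw [← hmp.integrableOn_comp_preimage hTemb] at h1
    refine h1.congr_fun (fun x _ => ?_) hTm
    simp only [Function.comp]
    rw [inner_T hB]
  have hmo : ∀ k, MeasurableSet (cello len k) := fun k =>
    MeasurableSet.univ_pi fun j => measurableSet_Ioo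
  have hsubU : (⋃ k ∈ K', cello len k) ⊆ (T B⁻¹) ⁻¹' (ball (0 : EE d) (ρ + δ)) := by
    intro x hx
    obtain ⟨k, hk, hxk⟩ := Set.mem_iUnion₂.1 hx
    rw [hmemK'] at hk
    have h1 := hcelld k x (cello_sub len k hxk)
    have h2 : ‖T B⁻¹ x‖ ≤ ‖T B⁻¹ (kap len k)‖ + ‖T B⁻¹ x - T B⁻¹ (kap len k)‖ := by
      have := norm_sub_norm_le (T B⁻¹ x) (T B⁻¹ (kap len k))
      linarith
    have : ‖T B⁻¹ x‖ < ρ + δ := by linarith
    simpa using this
  have hsum : ∑ k ∈ K', V * (∑ j, v j * kap len k j) ^ 2 ≤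
      ‖w‖ ^ 2 * (ballVol d * ((ρ + δ) ^ (d + 2) / (d + 2))) := by
    rw [← hball]
    calc ∑ k ∈ K', V * (∑ j, v j * kap len k j) ^ 2 ≤
        ∑ k ∈ K', ∫ x in cello len k, (∑ j, v j * x j) ^ 2 :=
          Finset.sum_le_sum fun k _ => cell_int hl k v
      _ = ∫ x in ⋃ k ∈ K', cello len k, (∑ j, v j * x j) ^ 2 := by
          rw [integral_biUnion_finset K' (fun k _ => hmo k)]
          · intro k _ k' _ hkk'
            exact cello_disj len hl hkk'
          · intro k hk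
            refine hintball.mono_set (subset_trans ?_ hsubU)
            exact Set.subset_iUnion₂_of_subset k hk subset_rfl
      _ ≤ _ := by
          refine setIntegral_mono_set hintball ?_ (Eventually.of_forall hsubU)
          exact Eventually.of_forall fun x => sq_nonneg _
  have hKle : ∑ k ∈ K, (∑ j, v j * (2 * Real.pi * k j / len j)) ^ 2 ≤
      ∑ k ∈ K', (∑ j, v j * kap len k j) ^ 2 :=
    Finset.sum_le_sum_of_subset_of_nonneg hKK' fun k _ _ => sq_nonneg _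
  rw [← Finset.mul_sum] at hsum
  have hmain : ∑ k ∈ K', (∑ j, v j * kap len k j) ^ 2 ≤
      ‖w‖ ^ 2 * (ballVol d * ((ρ + δ) ^ (d + 2) / (d + 2))) / V := by
    rw [le_div_iff₀ hVpos, mul_comm]; exact hsum
  have hρδ : ρ + δ = s * (r0 d + 2 * δ / s) := by
    rw [hρ]; field_simp; ring
  have hfinal : ‖w‖ ^ 2 * (ballVol d * ((ρ + δ) ^ (d + 2) / (d + 2))) / V ≤
      s ^ 2 * (N * L) * (Kcl d / d + ε) * ‖w‖ ^ 2 := by
    have e1 : ‖w‖ ^ 2 * (ballVol d * ((ρ + δ) ^ (d + 2) / (d + 2))) / V =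
        s ^ 2 * (N * L) * (ballVol d / ((2 * Real.pi) ^ d * (d + 2)) * (r0 d + 2 * δ / s) ^ (d + 2)) *
          ‖w‖ ^ 2 := by
      rw [hρδ, mul_pow, hV, pow_add s, hsd]
      have hpd : (2 * Real.pi) ^ d ≠ 0 := by positivity
      have hd2 : (d : ℝ) + 2 ≠ 0 := by positivity
      field_simp
    rw [e1]
    gcongr
  rw [hs2, hwn]
  exact hKle.trans (hmain.trans hfinal)

end Pool.Agent.W596.MY
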