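import Pool.Agent.W596.MY.Slater3
import Pool.Agent.W596.MY.Int

set_option autoImplicit false

namespace Pool.Agent.W596.MY

open MeasureTheory Filter Topology Pool.Agent.W564.MY Equiv
open scoped ENNReal ComplexConjugate

variable {d n : ℕ}

lemma sum_lint_le {V ι : Type} [MeasurableSpace V] (μ : Measure V) (S : Finset ι) (f : ι → V → ℝ≥0∞) :
    ∑ a ∈ S, ∫⁻ x, f a x ∂μ ≤ ∫⁻ x, ∑ a ∈ S, f a x ∂μ := by
  classical
  induction S using Finset.induction_on with
  | empty => simp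
  | insert a S ha ih =>
    simp_rw [Finset.sum_insert ha]
    exact (add_le_add le_rfl ih).trans (le_lintegral_add _ _)

lemma Phi_ins {N : ℕ} (φ : Fin N → E d → ℂ) (e : Fin (n + 1) → Fin N) (α : Perm (Fin N) → ℂ)
    (j : Fin (n + 1)) (t : E d) (z : Fin n → E d) :
    Phi φ e α (ins j t z) = Phi φ (fun k => e (j.succAbove k)) (fun σ => α σ * φ (σ (e j)) t) z := by
  simp only [Phi, pr, Fin.prod_univ_succAbove _ j, Fin.insertNth_apply_same,
    Fin.insertNth_apply_succAbove]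
  exact Finset.sum_congr rfl fun σ _ => by ring

/-- the two-body term -/
noncomputable def rr (φ : Fin (n + 2) → E d → ℂ) (s t : E d) (a b : Fin (n + 2)) : ℝ :=
  ‖φ a s‖ ^ 2 * ‖φ b t‖ ^ 2 - (φ a s * φ b t * conj (φ b s) * conj (φ a t)).re

lemma rr_self (φ : Fin (n + 2) → E d → ℂ) (s t : E d) (a : Fin (n + 2)) : rr φ s t a a = 0 := by
  unfold rr
  have : φ a s * φ a t * conj (φ a s) * conj (φ a t) = ((‖φ a s‖ ^ 2 * ‖φ a t‖ ^ 2 : ℝ) : ℂ) := by
    have h1 : φ a s * conj (φ a s) = ((‖φ a s‖ ^ 2 : ℝ) : ℂ) := by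
      rw [Complex.mul_conj, Complex.normSq_eq_norm_sq]
    have h2 : φ a t * conj (φ a t) = ((‖φ a t‖ ^ 2 : ℝ) : ℂ) := by
      rw [Complex.mul_conj, Complex.normSq_eq_norm_sq]
    calc _ = (φ a s * conj (φ a s)) * (φ a t * conj (φ a t)) := by ring
      _ = _ := by rw [h1, h2]; push_cast; ring
  rw [this, Complex.ofReal_re]; ring

lemma rr_sum_le (φ : Fin (n + 2) → E d → ℂ) (s t : E d) :
    ∑ a, ∑ b, rr φ s t a b ≤ (∑ a, ‖φ a s‖ ^ 2) * (∑ a, ‖φ a t‖ ^ 2) := by
  simp only [rr, Finset.sum_sub_distrib]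
  rw [Finset.sum_mul_sum]
  have h : ∑ a, ∑ b, (φ a s * φ b t * conj (φ b s) * conj (φ a t)).re =
      ‖∑ a, φ a s * conj (φ a t)‖ ^ 2 := by
    have h1 : ∑ a, ∑ b, (φ a s * φ b t * conj (φ b s) * conj (φ a t)) =
        (∑ a, φ a s * conj (φ a t)) * conj (∑ a, φ a s * conj (φ a t)) := by
      rw [map_sum, Finset.sum_mul_sum]
      refine Finset.sum_congr rfl fun a _ => Finset.sum_congr rfl fun b _ => ?_
      rw [map_mul, Complex.conj_conj]; ring
    have h2 := congrArg Complex.re h1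
    rw [Complex.mul_conj, Complex.ofReal_re, Complex.normSq_eq_norm_sq, Complex.re_sum] at h2
    simp_rw [Complex.re_sum] at h2
    exact h2
  rw [h]
  have : 0 ≤ ‖∑ a, φ a s * conj (φ a t)‖ ^ 2 := by positivity
  linarith

/-- the inner integral -/
noncomputable def RR (φ : Fin (n + 2) → E d → ℂ) (i : Fin (n + 2)) (j : Fin (n + 1)) (s t : E d) : ℝ :=
  ((n + 2).factorial : ℝ)⁻¹ * ∑ σ : Perm (Fin (n + 2)), rr φ s t (σ i) (σ (i.succAbove j))

lemma inner_RR {φ : Fin (n + 2) → E d → ℂ} (hφ : ∀ a, MemLp (φ a) 2)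
    (ho : ∀ a b, ∫ x, φ a x * conj (φ b x) = if a = b then 1 else 0) (i : Fin (n + 2))
    (j : Fin (n + 1)) (s t : E d) :
    ∫ z, ‖Phi φ (fun k => i.succAbove (j.succAbove k))
      (fun σ => cc (n + 2) σ * φ (σ i) s * φ (σ (i.succAbove j)) t) z‖ ^ 2 = RR φ i j s t := by
  rw [gram_two hφ ho, RR, Finset.mul_sum]
  refine Finset.sum_congr rfl fun σ _ => ?_
  have hne : i ≠ i.succAbove j := (Fin.succAbove_ne _ _).symm
  rw [cc_swap _ _ hne, Perm.mul_apply, Perm.mul_apply, swap_apply_left, swap_apply_right,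
    norm_mul, norm_mul, mul_pow, mul_pow, norm_cc, rr]
  have h1 : cc (n + 2) σ * φ (σ i) s * φ (σ (i.succAbove j)) t *
      conj (-cc (n + 2) σ * φ (σ (i.succAbove j)) s * φ (σ i) t) =
      -((((n + 2).factorial : ℝ)⁻¹ : ℝ) : ℂ) *
        (φ (σ i) s * φ (σ (i.succAbove j)) t * conj (φ (σ (i.succAbove j)) s) * conj (φ (σ i) t)) := by
    have h2 : cc (n + 2) σ * conj (cc (n + 2) σ) = ((((n + 2).factorial : ℝ)⁻¹ : ℝ) : ℂ) := by
      rw [Complex.mul_conj, Complex.normSq_eq_norm_sq, norm_cc]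
    rw [← h2]
    simp only [map_mul, map_neg]
    ring
  rw [h1, neg_mul, Complex.neg_re, Complex.re_ofReal_mul]
  ring

lemma pair_formula {φ : Fin (n + 2) → E d → ℂ} (hφ : ∀ a, MemLp (φ a) 2)
    (ho : ∀ a b, ∫ x, φ a x * conj (φ b x) = if a = b then 1 else 0) (i : Fin (n + 2))
    (j : Fin (n + 1)) {w : E d → ℝ≥0∞} (hw : Measurable w) :
    ∫⁻ x : Fin (n + 2) → E d, w (x i - x (i.succAbove j)) * ENNReal.ofReal (‖Psi φ x‖ ^ 2) =
      ∫⁻ s, ∫⁻ t, w (s - t) * ENNReal.ofReal (RR φ i j s t) := by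
  have hΨ : MemLp (Psi φ) 2 := by rw [← Sl_self φ 0]; exact Sl_memLp hφ hφ 0
  have hF : AEMeasurable (fun x : Fin (n + 2) → E d =>
      w (x i - x (i.succAbove j)) * ENNReal.ofReal (‖Psi φ x‖ ^ 2)) volume := by
    refine AEMeasurable.mul (Measurable.aemeasurable ?_) ?_
    · exact hw.comp ((measurable_pi_apply i).sub (measurable_pi_apply _))
    · exact (hΨ.aestronglyMeasurable.norm.aemeasurable.pow_const 2).ennreal_ofReal
  rw [lint_ins i hF]
  refine lintegral_congr fun s => ?_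
  have e1 : ∀ y, w (ins i s y i - ins i s y (i.succAbove j)) * ENNReal.ofReal (‖Psi φ (ins i s y)‖ ^ 2) =
      w (s - y j) * ENNReal.ofReal
        (‖Phi φ i.succAbove (fun σ => cc (n + 2) σ * φ (σ i) s) y‖ ^ 2) := by
    intro y
    rw [← Sl_self φ i, Sl_ins]
    simp
  simp_rw [e1]
  have hF2 : AEMeasurable (fun y : Fin (n + 1) → E d => w (s - y j) * ENNReal.ofReal
        (‖Phi φ i.succAbove (fun σ => cc (n + 2) σ * φ (σ i) s) y‖ ^ 2)) volume := by
    refine AEMeasurable.mul (Measurable.aemeasurable ?_) ?_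
    · exact hw.comp (measurable_const.sub (measurable_pi_apply _))
    · exact ((Phi_memLp hφ _ _).aestronglyMeasurable.norm.aemeasurable.pow_const 2).ennreal_ofReal
  rw [lint_ins j hF2]
  refine lintegral_congr fun t => ?_
  simp_rw [Phi_ins]
  have hm := ((Phi_memLp hφ (fun k => i.succAbove (j.succAbove k))
    (fun σ => cc (n + 2) σ * φ (σ i) s * φ (σ (i.succAbove j)) t)).aestronglyMeasurable.norm.aemeasurable.pow_const 2).ennreal_ofReal
  simp only [Fin.insertNth_apply_same]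
  rw [lintegral_const_mul'' _ hm, lint_sq (Phi_memLp hφ _ _), inner_RR hφ ho]

lemma RR_sum_le (φ : Fin (n + 2) → E d → ℂ) (s t : E d) :
    ∑ i, ∑ j, RR φ i j s t ≤ (∑ a, ‖φ a s‖ ^ 2) * (∑ a, ‖φ a t‖ ^ 2) := by
  refine le_trans (le_of_eq ?_) (rr_sum_le φ s t)
  simp only [RR, ← Finset.mul_sum]
  have h1 : ∀ i : Fin (n + 2), ∑ j : Fin (n + 1), ∑ σ : Perm (Fin (n + 2)),
      rr φ s t (σ i) (σ (i.succAbove j)) =
      ∑ σ : Perm (Fin (n + 2)), ∑ j : Fin (n + 2), rr φ s t (σ i) (σ j) := by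
    intro i
    rw [Finset.sum_comm]
    refine Finset.sum_congr rfl fun σ _ => ?_
    rw [Fin.sum_univ_succAbove _ i, rr_self, zero_add]
  simp_rw [h1]
  rw [Finset.sum_comm]
  have h2 : ∀ σ : Perm (Fin (n + 2)), ∑ i, ∑ j, rr φ s t (σ i) (σ j) = ∑ a, ∑ b, rr φ s t a b := by
    intro σ
    rw [← Equiv.sum_comp σ (fun a => ∑ b, rr φ s t a b)]
    refine Finset.sum_congr rfl fun i _ => ?_
    rw [← Equiv.sum_comp σ (fun b => rr φ s t (σ i) b)]
  simp_rw [h2]
  rw [Finset.sum_const, Finset.card_univ, Fintype.card_perm, Fintype.card_fin, nsmul_eq_mul,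
    ← mul_assoc, inv_mul_cancel₀ (by positivity), one_mul]

lemma pair_bound {φ : Fin (n + 2) → E d → ℂ} (hφ : ∀ a, MemLp (φ a) 2)
    (ho : ∀ a b, ∫ x, φ a x * conj (φ b x) = if a = b then 1 else 0)
    {w : E d → ℝ≥0∞} (hw : Measurable w) (hev : ∀ x, w (-x) = w x) :
    ∑ i : Fin (n + 2), ∑ j : Fin (n + 2), (if i < j then
          ∫⁻ x : Fin (n + 2) → E d, w (x i - x j) * ENNReal.ofReal (‖Psi φ x‖ ^ 2) else 0) ≤
          2⁻¹ * ∫⁻ x, ∫⁻ y, w (x - y) * (∑ a, ENNReal.ofReal (‖φ a x‖ ^ 2)) *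
            (∑ a, ENNReal.ofReal (‖φ a y‖ ^ 2)) := by
  set a : Fin (n + 2) → Fin (n + 2) → ℝ≥0∞ := fun i j =>
    if i = j then 0 else ∫⁻ x : Fin (n + 2) → E d, w (x i - x j) * ENNReal.ofReal (‖Psi φ x‖ ^ 2) with ha
  have hsym : ∀ i j, a i j = a j i := by
    intro i j
    simp only [ha, eq_comm (a := i) (b := j)]
    split_ifs with h
    · rfl
    · refine lintegral_congr fun x => ?_
      rw [← hev (x i - x j), neg_sub]
  have htri := sum_tri a hsym 0 (fun i => by simp [ha])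
  have hlt : ∑ i : Fin (n + 2), ∑ j : Fin (n + 2), (if i < j then
          ∫⁻ x : Fin (n + 2) → E d, w (x i - x j) * ENNReal.ofReal (‖Psi φ x‖ ^ 2) else 0) =
      ∑ i, ∑ j, if i < j then a i j else 0 := by
    refine Finset.sum_congr rfl fun i _ => Finset.sum_congr rfl fun j _ => ?_
    split_ifs with h
    · simp [ha, h.ne]
    · rfl
  rw [hlt]
  rw [mul_zero, add_zero] at htri
  have hmain : ∑ i, ∑ j, a i j ≤ ∫⁻ x, ∫⁻ y, w (x - y) * (∑ a, ENNReal.ofReal (‖φ a x‖ ^ 2)) *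
            (∑ a, ENNReal.ofReal (‖φ a y‖ ^ 2)) := by
    have h1 : ∀ i, ∑ j, a i j = ∑ j : Fin (n + 1), ∫⁻ s, ∫⁻ t, w (s - t) * ENNReal.ofReal (RR φ i j s t) := by
      intro i
      rw [Fin.sum_univ_succAbove _ i]
      have : a i i = 0 := by simp [ha]
      rw [this, zero_add]
      refine Finset.sum_congr rfl fun j _ => ?_
      rw [← pair_formula hφ ho i j hw]
      simp only [ha]
      rw [if_neg (Fin.succAbove_ne _ _).symm]
    simp_rw [h1]
    rw [← Fintype.sum_prod_type' (f := fun (i : Fin (n + 2)) (j : Fin (n + 1)) =>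
      ∫⁻ s, ∫⁻ t, w (s - t) * ENNReal.ofReal (RR φ i j s t))]
    refine (sum_lint_le _ _ _).trans ?_
    refine lintegral_mono fun s => ?_
    refine (sum_lint_le _ _ _).trans ?_
    refine lintegral_mono fun t => ?_
    simp only
    rw [← Finset.mul_sum, mul_assoc]
    refine mul_le_mul' le_rfl ?_
    rw [← ENNReal.ofReal_sum_of_nonneg, ← ENNReal.ofReal_sum_of_nonneg (f := fun a => ‖φ a s‖ ^ 2) fun _ _ => by positivity,
      ← ENNReal.ofReal_sum_of_nonneg (f := fun a => ‖φ a t‖ ^ 2) fun _ _ => by positivity,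
      ← ENNReal.ofReal_mul (Finset.sum_nonneg fun _ _ => by positivity)]
    · refine ENNReal.ofReal_le_ofReal ?_
      rw [Fintype.sum_prod_type]
      exact RR_sum_le φ s t
    · intro p _
      rw [← inner_RR hφ ho]
      exact integral_nonneg fun _ => by positivity
  calc ∑ i, ∑ j, (if i < j then a i j else 0) =
        2⁻¹ * (2 * ∑ i, ∑ j, (if i < j then a i j else 0)) := by
        rw [← mul_assoc, ENNReal.inv_mul_cancel (by norm_num) (by norm_num), one_mul]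
    _ ≤ _ := by rw [← htri]; exact mul_le_mul' le_rfl hmain

theorem s_slater : S_slater := by
  intro N d hN φ g hφ ho
  obtain ⟨n, rfl⟩ : ∃ n, N = n + 1 := ⟨N - 1, by omega⟩
  refine ⟨Psi φ, fun i c => Sl φ i (fun a => g a c), isH1N_Psi hφ, antisym_Psi φ,
    norm_Psi (fun a => (hφ a).1) ho, hasDensity_Psi (fun a => (hφ a).1) ho, ?_, ?_⟩
  · rw [Finset.sum_comm, Finset.sum_comm (s := (Finset.univ : Finset (Fin (n + 1))))
      (f := fun a c => ∫ x, ‖g a c x‖ ^ 2)]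
    exact Finset.sum_congr rfl fun c _ => kin_sum (fun a => (hφ a).1) (fun a => (hφ a).2.1 c) ho
  · intro w hw hev
    cases n with
    | zero =>
      have : ∀ i j : Fin (0 + 1), ¬ i < j := by decide
      simp [this]
    | succ n => exact pair_bound (fun a => (hφ a).1) ho hw hev

end Pool.Agent.W596.MY
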