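import Pool.Agent.W564.MY.Defs

set_option autoImplicit false

namespace Pool.Agent.W596.MY

open MeasureTheory Filter Topology Pool.Agent.W564.MY Metric
open scoped ENNReal RealInnerProductSpace

abbrev EE (d : ℕ) := EuclideanSpace ℝ (Fin d)

lemma ballVol_eq (d : ℕ) : ballVol d = (volume : Measure (EE d)).real (ball (0 : EE d) 1) := by
  rw [ballVol, Measure.real]
  congr 1
  rw [← (PiLp.volume_preserving_toLp (Fin d)).measure_preimage measurableSet_ball.nullMeasurableSet]
  congr 1
  ext x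
  simp only [Set.mem_ofPred_eq, Set.mem_preimage, mem_ball, dist_zero_right, EuclideanSpace.norm_eq]
  rw [Real.sqrt_lt' one_pos]
  simp

lemma ballVol_pos (d : ℕ) : 0 < ballVol d := by
  rw [ballVol_eq, Measure.real]
  exact ENNReal.toReal_pos (measure_ball_pos _ _ one_pos).ne' measure_ball_lt_top.ne

lemma intOn_ball {d : ℕ} {f : EE d → ℝ} (hf : Continuous f) (R : ℝ) :
    IntegrableOn f (ball (0 : EE d) R) :=
  (hf.continuousOn.integrableOn_compact (isCompact_closedBall 0 R)).mono_set ball_subset_closedBall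

lemma int_norm_sq {d : ℕ} (hd : 1 ≤ d) {R : ℝ} (hR : 0 ≤ R) :
    ∫ y in ball (0 : EE d) R, ‖y‖ ^ 2 = d * ballVol d * (R ^ (d + 2) / (d + 2)) := by
  have : Nontrivial (EE d) := by
    have : Nonempty (Fin d) := ⟨⟨0, hd⟩⟩
    infer_instance
  have h := integral_fun_norm_addHaar (volume : Measure (EE d)) (fun r : ℝ => if r < R then r ^ 2 else 0)
  have h1 : ∫ y in ball (0 : EE d) R, ‖y‖ ^ 2 = ∫ y : EE d, (if ‖y‖ < R then ‖y‖ ^ 2 else 0) := by
    rw [← integral_indicator measurableSet_ball]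
    refine integral_congr_ae (Eventually.of_forall fun y => ?_)
    by_cases hy : ‖y‖ < R
    · simp [Set.indicator, hy]
    · simp [Set.indicator, hy]
  rw [h1, h, ← ballVol_eq]
  have h2 : ∫ y in Set.Ioi (0 : ℝ), y ^ (Module.finrank ℝ (EE d) - 1) • (if y < R then y ^ 2 else 0) =
      R ^ (d + 2) / (d + 2) := by
    have h3 : ∀ y : ℝ, y ^ (Module.finrank ℝ (EE d) - 1) • (if y < R then y ^ 2 else 0) =
        (Set.Iio R).indicator (fun y => y ^ (d + 1)) y := by
      intro y
      have hd1 : Module.finrank ℝ (EE d) - 1 + 2 = d + 1 := by simp; omega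
      by_cases hy : y < R
      · simp only [Set.indicator, Set.mem_Iio, hy, if_true, smul_eq_mul]
        rw [← pow_add, hd1]
      · simp [Set.indicator, hy]
    simp_rw [h3]
    rw [setIntegral_indicator measurableSet_Iio, Set.Ioi_inter_Iio, ← integral_Ioc_eq_integral_Ioo,
      ← intervalIntegral.integral_of_le hR, integral_pow]
    simp
    ring
  rw [h2]
  simp [smul_eq_mul]
  ring


/-- second moments of the ball -/
lemma int_inner_sq {d : ℕ} (hd : 1 ≤ d) {R : ℝ} (hR : 0 ≤ R) (w : EE d) :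
    ∫ y in ball (0 : EE d) R, ⟪w, y⟫ ^ 2 = ‖w‖ ^ 2 * (ballVol d * (R ^ (d + 2) / (d + 2))) := by
  set Φ : EE d → ℝ := fun w => ∫ y in ball (0 : EE d) R, ⟪w, y⟫ ^ 2 with hΦ
  have hrot : ∀ v w : EE d, ‖v‖ = ‖w‖ → Φ v = Φ w := by
    intro v w h
    set f : EE d ≃ₗᵢ[ℝ] EE d := (ℝ ∙ (v - w))ᗮ.reflection with hf
    have hfv : f v = w := Submodule.reflection_sub h
    have hmp := f.measurePreserving
    have hpre : f ⁻¹' (ball 0 R) = ball 0 R := by
      ext x; simp
    simp only [hΦ]
    symm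
    rw [← hmp.setIntegral_preimage_emb f.toHomeomorph.measurableEmbedding, hpre]
    refine integral_congr_ae (Eventually.of_forall fun y => ?_)
    simp only
    rw [← hfv, f.inner_map_map]
  have hscale : ∀ (c : ℝ) (w : EE d), Φ (c • w) = c ^ 2 * Φ w := by
    intro c w
    simp only [hΦ]
    rw [← integral_const_mul]
    refine integral_congr_ae (Eventually.of_forall fun y => ?_)
    simp only [inner_smul_left, RCLike.conj_to_real]
    ring
  set e : Fin d → EE d := fun i => EuclideanSpace.single i (1 : ℝ) with he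
  have hen : ∀ i, ‖e i‖ = 1 := fun i => by simp [he]
  have hsum : ∑ i, Φ (e i) = d * ballVol d * (R ^ (d + 2) / (d + 2)) := by
    rw [← int_norm_sq hd hR]
    simp only [hΦ]
    rw [← integral_finsetSum _ (fun i _ => intOn_ball (by fun_prop) R)]
    refine integral_congr_ae (Eventually.of_forall fun y => ?_)
    simp only
    rw [EuclideanSpace.norm_sq_eq]
    refine Finset.sum_congr rfl fun i _ => ?_
    simp [he, EuclideanSpace.inner_single_left]
  set i0 : Fin d := ⟨0, hd⟩
  have hall : ∀ i, Φ (e i) = Φ (e i0) := fun i => hrot _ _ (by rw [hen, hen])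
  have h0 : Φ (e i0) = ballVol d * (R ^ (d + 2) / (d + 2)) := by
    have h1 : (d : ℝ) * Φ (e i0) = d * ballVol d * (R ^ (d + 2) / (d + 2)) := by
      rw [← hsum, Finset.sum_congr rfl fun i _ => hall i]; simp
    have hd0 : (d : ℝ) ≠ 0 := by positivity
    have h2 : (d : ℝ) * Φ (e i0) = d * (ballVol d * (R ^ (d + 2) / (d + 2))) := by rw [h1]; ring
    exact mul_left_cancel₀ hd0 h2
  have : Φ w = Φ (‖w‖ • e i0) := hrot _ _ (by rw [norm_smul, hen]; simp)
  change Φ w = _
  rw [this, hscale, h0]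

end Pool.Agent.W596.MY
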