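import Pool.Agent.W596.MY.Ball

set_option autoImplicit false

namespace Pool.Agent.W596.MY

open MeasureTheory Filter Topology Pool.Agent.W564.MY Metric
open scoped ENNReal RealInnerProductSpace

variable {d : ℕ}

/-- the linear map `x ↦ A x` into Euclidean space -/
noncomputable def T (A : Matrix (Fin d) (Fin d) ℝ) : (Fin d → ℝ) →ₗ[ℝ] EE d :=
  (WithLp.linearEquiv 2 ℝ (Fin d → ℝ)).symm.toLinearMap ∘ₗ Matrix.toLin' A

lemma T_apply (A : Matrix (Fin d) (Fin d) ℝ) (x : Fin d → ℝ) (m : Fin d) :
    T A x m = ∑ j, A m j * x j := by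
  simp [T, Matrix.toLin'_apply, Matrix.mulVec, dotProduct]

lemma T_mp {A : Matrix (Fin d) (Fin d) ℝ} (hA : A.det = 1) :
    MeasurePreserving (T A) (volume : Measure (Fin d → ℝ)) (volume : Measure (EE d)) := by
  have h1 : MeasurePreserving (Matrix.toLin' A) (volume : Measure (Fin d → ℝ)) volume := by
    refine ⟨(LinearMap.continuous_of_finiteDimensional _).measurable, ?_⟩
    rw [Real.map_matrix_volume_pi_eq_smul_volume_pi (by rw [hA]; exact one_ne_zero), hA]
    simp
  have h2 := (PiLp.volume_preserving_toLp (Fin d)).comp h1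
  exact h2

lemma inner_T {B : Matrix (Fin d) (Fin d) ℝ} (hB : B.det = 1) (v x : Fin d → ℝ) :
    ∑ j, v j * x j = ⟪(WithLp.toLp 2 (fun m => ∑ j, B j m * v j) : EE d), T B⁻¹ x⟫ := by
  have hx : B.mulVec (B⁻¹.mulVec x) = x := by
    rw [Matrix.mulVec_mulVec, Matrix.mul_nonsing_inv _ (by rw [hB]; exact isUnit_one), Matrix.one_mulVec]
  have h1 : ∀ j, x j = ∑ m, B j m * T B⁻¹ x m := by
    intro j
    conv_lhs => rw [← hx]
    simp [Matrix.mulVec, dotProduct, T_apply]
  rw [PiLp.inner_apply]
  simp only [RCLike.inner_apply, conj_trivial]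
  calc ∑ j, v j * x j = ∑ j, v j * ∑ m, B j m * T B⁻¹ x m := by
        exact Finset.sum_congr rfl fun j _ => by rw [← h1]
    _ = ∑ j, ∑ m, v j * (B j m * T B⁻¹ x m) := by simp [Finset.mul_sum]
    _ = ∑ m, ∑ j, v j * (B j m * T B⁻¹ x m) := Finset.sum_comm
    _ = _ := by
        refine Finset.sum_congr rfl fun m _ => ?_
        rw [Finset.mul_sum]
        exact Finset.sum_congr rfl fun j _ => by ring

lemma T_bound (A : Matrix (Fin d) (Fin d) ℝ) : ∃ α : ℝ, 0 ≤ α ∧ ∀ x, ‖T A x‖ ≤ α * ‖x‖ := by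
  let f : (Fin d → ℝ) →L[ℝ] EE d := (T A).toContinuousLinearMap
  exact ⟨‖f‖, norm_nonneg _, fun x => f.le_opNorm x⟩

lemma T_inj {A : Matrix (Fin d) (Fin d) ℝ} (hA : A.det = 1) : Function.Injective (T A) := by
  intro x y h
  have : Matrix.toLin' A x = Matrix.toLin' A y := by
    simpa [T] using h
  simp only [Matrix.toLin'_apply] at this
  have h2 := congrArg (A⁻¹.mulVec) this
  rwa [Matrix.mulVec_mulVec, Matrix.mulVec_mulVec, Matrix.nonsing_inv_mul _ (by rw [hA]; exact isUnit_one),
    Matrix.one_mulVec, Matrix.one_mulVec] at h2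

lemma T_lower {A : Matrix (Fin d) (Fin d) ℝ} (hA : A.det = 1) : ∃ β : ℝ, 0 < β ∧ ∀ x, ‖x‖ ≤ β * ‖T A x‖ := by
  obtain ⟨K, hK, h⟩ := (T A).toContinuousLinearMap.toLinearMap.exists_antilipschitzWith
    (LinearMap.ker_eq_bot.2 (T_inj hA))
  refine ⟨K, hK, fun x => ?_⟩
  have := h.le_mul_dist x 0
  simpa using this

/-- lattice point -/
noncomputable def kap (len : Fin d → ℝ) (k : Fin d → ℤ) : Fin d → ℝ := fun j => 2 * Real.pi * k j / len j

def cellc (len : Fin d → ℝ) (k : Fin d → ℤ) : Set (Fin d → ℝ) :=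
  Set.univ.pi fun j => Set.Icc (kap len k j - Real.pi / len j) (kap len k j + Real.pi / len j)

def cello (len : Fin d → ℝ) (k : Fin d → ℤ) : Set (Fin d → ℝ) :=
  Set.univ.pi fun j => Set.Ioo (kap len k j - Real.pi / len j) (kap len k j + Real.pi / len j)

lemma vol_cellc (len : Fin d → ℝ) (hl : ∀ j, 0 < len j) (k : Fin d → ℤ) :
    volume (cellc len k) = ENNReal.ofReal ((2 * Real.pi) ^ d / ∏ j, len j) := by
  rw [cellc, volume_pi_pi]
  simp only [Real.volume_Icc]
  rw [← ENNReal.ofReal_prod_of_nonneg]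
  · congr 1
    have : ∀ j, kap len k j + Real.pi / len j - (kap len k j - Real.pi / len j) = (2 * Real.pi) / len j := by
      intro j; ring
    simp_rw [this]
    rw [Finset.prod_div_distrib]
    simp
  · intro j _
    have := hl j
    have : 0 < Real.pi / len j := by positivity
    linarith

lemma vol_cello (len : Fin d → ℝ) (hl : ∀ j, 0 < len j) (k : Fin d → ℤ) :
    volume (cello len k) = ENNReal.ofReal ((2 * Real.pi) ^ d / ∏ j, len j) := by
  rw [cello, volume_pi_pi]
  simp only [Real.volume_Ioo]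
  rw [← ENNReal.ofReal_prod_of_nonneg]
  · congr 1
    have : ∀ j, kap len k j + Real.pi / len j - (kap len k j - Real.pi / len j) = (2 * Real.pi) / len j := by
      intro j; ring
    simp_rw [this]
    rw [Finset.prod_div_distrib]
    simp
  · intro j _
    have := hl j
    have : 0 < Real.pi / len j := by positivity
    linarith

lemma cello_disj (len : Fin d → ℝ) (hl : ∀ j, 0 < len j) {k k' : Fin d → ℤ} (h : k ≠ k') :
    Disjoint (cello len k) (cello len k') := by
  obtain ⟨j, hj⟩ : ∃ j, k j ≠ k' j := by by_contra hc; push Not at hc; exact h (funext hc)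
  rw [Set.disjoint_left]
  intro x hx hx'
  have h1 := hx j (Set.mem_univ j)
  have h2 := hx' j (Set.mem_univ j)
  simp only [kap, Set.mem_Ioo] at h1 h2
  have hlj := hl j
  have e : ∀ a : ℤ, 2 * Real.pi * a / len j = (Real.pi / len j) * (2 * a) := fun a => by ring
  rw [e] at h1 h2
  have hp : 0 < Real.pi / len j := by positivity
  set p := Real.pi / len j
  have a1 : p * (2 * (k j : ℝ) - 1) < p * (2 * (k' j : ℝ) + 1) := by nlinarith [h1.1, h2.2]
  have a2 : p * (2 * (k' j : ℝ) - 1) < p * (2 * (k j : ℝ) + 1) := by nlinarith [h2.1, h1.2]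
  have b1 := lt_of_mul_lt_mul_left a1 hp.le
  have b2 := lt_of_mul_lt_mul_left a2 hp.le
  have c1 : (k j : ℝ) < k' j + 1 := by linarith
  have c2 : (k' j : ℝ) < k j + 1 := by linarith
  have d1 : k j < k' j + 1 := by exact_mod_cast c1
  have d2 : k' j < k j + 1 := by exact_mod_cast c2
  exact hj (by omega)

lemma exists_cell (len : Fin d → ℝ) (hl : ∀ j, 0 < len j) (x : Fin d → ℝ) : ∃ k, x ∈ cellc len k := by
  refine ⟨fun j => round (x j * len j / (2 * Real.pi)), fun j _ => ?_⟩
  have hlj := hl j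
  have h := abs_sub_round (x j * len j / (2 * Real.pi))
  rw [abs_le] at h
  simp only [kap, Set.mem_Icc]
  have hp := Real.pi_pos
  set r : ℝ := ((round (x j * len j / (2 * Real.pi)) : ℤ) : ℝ) with hr
  constructor
  · rw [← sub_nonneg] at h ⊢
    have : x j - (2 * Real.pi * r / len j - Real.pi / len j) =
      (x j * len j / (2 * Real.pi) - r - -(1/2)) * (2 * Real.pi / len j) := by field_simp; ring
    rw [this]
    have h1 := h.1
    refine mul_nonneg (by linarith) (by positivity)
  · rw [← sub_nonneg]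
    have : (2 * Real.pi * r / len j + Real.pi / len j) - x j =
      (1/2 - (x j * len j / (2 * Real.pi) - r)) * (2 * Real.pi / len j) := by field_simp; ring
    rw [this]
    refine mul_nonneg (by linarith [h.2]) (by positivity)

lemma cell_dist {len : Fin d → ℝ} {lam : ℝ} (hlam : 0 < lam) (hl : ∀ j, lam ≤ len j) {k : Fin d → ℤ}
    {x : Fin d → ℝ} (hx : x ∈ cellc len k) : ‖x - kap len k‖ ≤ Real.pi / lam := by
  rw [pi_norm_le_iff_of_nonneg (by positivity)]
  intro j
  have h := hx j (Set.mem_univ j)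
  rw [Set.mem_Icc] at h
  have : Real.pi / len j ≤ Real.pi / lam := by
    have := hl j
    gcongr
  rw [Pi.sub_apply, Real.norm_eq_abs, abs_le]
  constructor <;> linarith

lemma cello_sub (len : Fin d → ℝ) (k : Fin d → ℤ) : cello len k ⊆ cellc len k :=
  Set.pi_mono fun _ _ => Set.Ioo_subset_Icc_self

/-- midpoint inequality on a cell -/
lemma cell_int {len : Fin d → ℝ} (hl : ∀ j, 0 < len j) (k : Fin d → ℤ) (v : Fin d → ℝ) :
    ((2 * Real.pi) ^ d / ∏ j, len j) * (∑ j, v j * kap len k j) ^ 2 ≤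
      ∫ x in cello len k, (∑ j, v j * x j) ^ 2 := by
  have hcont : Continuous fun x : Fin d → ℝ => (∑ j, v j * x j) ^ 2 := by fun_prop
  have hcpt : IsCompact (cellc len k) := isCompact_univ_pi fun j => isCompact_Icc
  have hint : ∀ f : (Fin d → ℝ) → ℝ, Continuous f → IntegrableOn f (cello len k) := fun f hf =>
    (hf.continuousOn.integrableOn_compact hcpt).mono_set (cello_sub len k)
  have hmo : MeasurableSet (cello len k) :=
    MeasurableSet.univ_pi fun j => measurableSet_Ioo
  set c := kap len k with hc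
  have hmp : MeasurePreserving (fun x : Fin d → ℝ => (2 : ℝ) • c - x) volume volume :=
    Measure.measurePreserving_sub_left volume _
  have hemb : MeasurableEmbedding (fun x : Fin d → ℝ => (2 : ℝ) • c - x) :=
    (MeasurableEquiv.subLeft ((2 : ℝ) • c)).measurableEmbedding
  have hpre : (fun x : Fin d → ℝ => (2 : ℝ) • c - x) ⁻¹' (cello len k) = cello len k := by
    ext x
    simp only [cello, Set.mem_preimage, Set.mem_univ_pi, Set.mem_Ioo, Pi.sub_apply, Pi.smul_apply,
      smul_eq_mul, ← hc]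
    refine forall_congr' fun j => ?_
    constructor <;> rintro ⟨h1, h2⟩ <;> constructor <;> linarith
  have hrefl : ∫ x in cello len k, (∑ j, v j * x j) ^ 2 =
      ∫ x in cello len k, (∑ j, v j * (2 * c j - x j)) ^ 2 := by
    rw [← hmp.setIntegral_preimage_emb hemb, hpre]
    refine integral_congr_ae (Eventually.of_forall fun x => ?_)
    simp
  have hconst : ∫ x in cello len k, (∑ j, v j * c j) ^ 2 =
      ((2 * Real.pi) ^ d / ∏ j, len j) * (∑ j, v j * c j) ^ 2 := by
    rw [setIntegral_const, Measure.real, vol_cello len hl k, ENNReal.toReal_ofReal, smul_eq_mul]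
    have := Finset.prod_pos fun j (_ : j ∈ Finset.univ) => hl j
    positivity
  rw [← hconst]
  have hle : ∫ x in cello len k, 2 * (∑ j, v j * c j) ^ 2 ≤
      ∫ x in cello len k, ((∑ j, v j * x j) ^ 2 + (∑ j, v j * (2 * c j - x j)) ^ 2) := by
    refine setIntegral_mono_on (hint _ continuous_const) ((hint _ hcont).add (hint _ (by fun_prop))) hmo
      fun x _ => ?_
    have e : ∑ j, v j * (2 * c j - x j) = 2 * (∑ j, v j * c j) - ∑ j, v j * x j := by
      rw [Finset.mul_sum, ← Finset.sum_sub_distrib]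
      exact Finset.sum_congr rfl fun j _ => by ring
    rw [e]
    nlinarith [sq_nonneg ((∑ j, v j * c j) - ∑ j, v j * x j)]
  rw [integral_add (hint _ hcont) (hint _ (by fun_prop)), ← hrefl, integral_const_mul] at hle
  linarith

end Pool.Agent.W596.MY
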