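import Pool.Agent.W564.MY.Defs

set_option autoImplicit false

namespace Pool.Agent.W596.MY

open MeasureTheory Filter Topology Pool.Agent.W564.MY Equiv
open scoped ENNReal ComplexConjugate

variable {d N m : ℕ}

/-- product of functions of separate variables -/
noncomputable def pr (u : Fin m → E d → ℂ) (y : Fin m → E d) : ℂ := ∏ k, u k (y k)

lemma pr_aesm {u : Fin m → E d → ℂ} (hu : ∀ k, AEStronglyMeasurable (u k) volume) :
    AEStronglyMeasurable (pr u) volume := by
  unfold pr
  refine Finset.aestronglyMeasurable_fun_prod _ fun k _ => ?_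
  exact (hu k).comp_quasiMeasurePreserving (Measure.quasiMeasurePreserving_eval _ k)

lemma sq_integrable {V : Type} [MeasureSpace V] {u : V → ℂ} (hu : MemLp u 2) :
    Integrable (fun x => ‖u x‖ ^ 2) :=
  (memLp_two_iff_integrable_sq_norm hu.aestronglyMeasurable).1 hu

lemma pr_memLp {u : Fin m → E d → ℂ} (hu : ∀ k, MemLp (u k) 2) : MemLp (pr u) 2 := by
  rw [memLp_two_iff_integrable_sq_norm (pr_aesm fun k => (hu k).aestronglyMeasurable)]
  have h : Integrable (fun y : Fin m → E d => ∏ k, (‖u k (y k)‖ ^ 2)) := by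
    exact Integrable.fintype_prod (f := fun k x => ‖u k x‖ ^ 2) fun k => sq_integrable (hu k)
  refine h.congr (Eventually.of_forall fun y => ?_)
  simp only [pr, norm_prod, Finset.prod_pow]

lemma int_pr (u v : Fin m → E d → ℂ) :
    ∫ y, pr u y * conj (pr v y) = ∏ k, ∫ x, u k x * conj (v k x) := by
  rw [← integral_fintype_prod_volume_eq_prod (fun k x => u k x * conj (v k x))]
  refine integral_congr_ae (Eventually.of_forall fun y => ?_)
  simp only [pr, map_prod, Finset.prod_mul_distrib]

lemma l2_mul_int {V : Type} [MeasureSpace V] {u v : V → ℂ} (hu : MemLp u 2) (hv : MemLp v 2) :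
    Integrable (fun x => u x * conj (v x)) := by
  have := hv.star
  exact hu.integrable_mul (q := 2) this

/-- partially integrated determinant-like sum -/
noncomputable def Phi (φ : Fin N → E d → ℂ) (e : Fin m → Fin N) (α : Perm (Fin N) → ℂ)
    (y : Fin m → E d) : ℂ := ∑ σ, α σ * pr (fun k => φ (σ (e k))) y

lemma Phi_memLp {φ : Fin N → E d → ℂ} (hφ : ∀ a, MemLp (φ a) 2) (e : Fin m → Fin N)
    (α : Perm (Fin N) → ℂ) : MemLp (Phi φ e α) 2 := by
  unfold Phi
  refine memLp_finsetSum _ fun σ _ => ?_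
  exact (pr_memLp fun k => hφ _).const_mul _

lemma Phi_gram {φ : Fin N → E d → ℂ} (hφ : ∀ a, MemLp (φ a) 2)
    (ho : ∀ a b, ∫ x, φ a x * conj (φ b x) = if a = b then 1 else 0) (e : Fin m → Fin N)
    (α : Perm (Fin N) → ℂ) :
    ((∫ y, ‖Phi φ e α y‖ ^ 2 : ℝ) : ℂ) =
      ∑ σ, ∑ τ, α σ * conj (α τ) * (if ∀ k, σ (e k) = τ (e k) then 1 else 0) := by
  have h1 : ((∫ y, ‖Phi φ e α y‖ ^ 2 : ℝ) : ℂ) = ∫ y, Phi φ e α y * conj (Phi φ e α y) := by
    rw [← integral_complex_ofReal]
    refine integral_congr_ae (Eventually.of_forall fun y => ?_)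
    simp only
    rw [Complex.mul_conj, Complex.normSq_eq_norm_sq]
  rw [h1]
  have h2 : ∀ y, Phi φ e α y * conj (Phi φ e α y) = ∑ σ, ∑ τ, α σ * conj (α τ) *
      (pr (fun k => φ (σ (e k))) y * conj (pr (fun k => φ (τ (e k))) y)) := by
    intro y
    rw [Phi, map_sum, Finset.sum_mul_sum]
    refine Finset.sum_congr rfl fun σ _ => Finset.sum_congr rfl fun τ _ => ?_
    rw [map_mul]; ring
  simp_rw [h2]
  have hint : ∀ σ τ : Perm (Fin N), Integrable fun y : Fin m → E d => α σ * conj (α τ) *
      (pr (fun k => φ (σ (e k))) y * conj (pr (fun k => φ (τ (e k))) y)) := fun σ τ =>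
    (l2_mul_int (pr_memLp fun k => hφ _) (pr_memLp fun k => hφ _)).const_mul _
  rw [integral_finsetSum _ fun σ _ => integrable_finsetSum _ fun τ _ => hint σ τ]
  refine Finset.sum_congr rfl fun σ _ => ?_
  rw [integral_finsetSum _ fun τ _ => hint σ τ]
  refine Finset.sum_congr rfl fun τ _ => ?_
  rw [integral_const_mul, int_pr]
  congr 1
  simp_rw [ho]
  rw [Finset.prod_ite_zero]
  simp

lemma perm_eq_one {n : ℕ} (i : Fin (n + 1)) (σ τ : Perm (Fin (n + 1)))
    (h : ∀ k, σ (i.succAbove k) = τ (i.succAbove k)) : σ = τ := by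
  have hne : ∀ x, x ≠ i → σ x = τ x := by
    intro x hx
    obtain ⟨k, rfl⟩ := Fin.exists_succAbove_eq hx
    exact h k
  ext x
  congr 1
  by_cases hx : x = i
  · subst hx
    by_contra hc
    set y := τ.symm (σ x) with hy
    have h1 : τ y = σ x := by simp [hy]
    have hyx : y ≠ x := by rintro h2; rw [h2] at h1; exact hc h1.symm
    rw [← hne y hyx] at h1
    exact hyx (σ.injective h1)
  · exact hne x hx

lemma perm_eq_two {n : ℕ} (i : Fin (n + 2)) (j' : Fin (n + 1)) (σ τ : Perm (Fin (n + 2))) :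
    (∀ k, σ (i.succAbove (j'.succAbove k)) = τ (i.succAbove (j'.succAbove k))) ↔
      τ = σ ∨ τ = σ * swap i (i.succAbove j') := by
  set j := i.succAbove j' with hj
  have hij : j ≠ i := Fin.succAbove_ne _ _
  constructor
  · intro h
    have hne : ∀ x, x ≠ i → x ≠ j → σ x = τ x := by
      intro x hx hx'
      obtain ⟨k, rfl⟩ := Fin.exists_succAbove_eq hx
      have : k ≠ j' := by rintro rfl; exact hx' hj.symm
      obtain ⟨l, rfl⟩ := Fin.exists_succAbove_eq this
      exact h l
    set π : Perm (Fin (n + 2)) := σ⁻¹ * τ with hπ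
    have hfix : ∀ x, x ≠ i → x ≠ j → π x = x := by
      intro x hx hx'
      simp [hπ, Perm.mul_apply, ← hne x hx hx']
    have hτ : τ = σ * π := by simp [hπ]
    have hi : π i = i ∨ π i = j := by
      by_contra hc
      push Not at hc
      have := hfix (π i) hc.1 hc.2
      exact hc.1 (π.injective this)
    have hjj : π j = i ∨ π j = j := by
      by_contra hc
      push Not at hc
      have := hfix (π j) hc.1 hc.2
      exact hc.2 (π.injective this)
    rcases hi with hi | hi
    · left
      have hj2 : π j = j := by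
        rcases hjj with h1 | h1
        · exact absurd (π.injective (h1.trans hi.symm)) hij
        · exact h1
      have : π = 1 := by
        ext x
        by_cases hx : x = i
        · rw [hx, hi]; rfl
        · by_cases hx' : x = j
          · rw [hx', hj2]; rfl
          · rw [hfix x hx hx']; rfl
      rw [hτ, this, mul_one]
    · right
      have hj2 : π j = i := by
        rcases hjj with h1 | h1
        · exact h1
        · exact absurd (π.injective (h1.trans hi.symm)) hij
      have : π = swap i j := by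
        ext x
        by_cases hx : x = i
        · rw [hx, hi, swap_apply_left]
        · by_cases hx' : x = j
          · rw [hx', hj2, swap_apply_right]
          · rw [hfix x hx hx', swap_apply_of_ne_of_ne hx hx']
      rw [hτ, this]
  · rintro (h | h) k
    · rw [h]
    · rw [h, Perm.mul_apply, swap_apply_of_ne_of_ne]
      · exact Fin.succAbove_ne _ _
      · rw [hj]
        intro h2
        exact Fin.succAbove_ne _ _ (Fin.succAbove_right_injective h2)

lemma gram_one {n : ℕ} {φ : Fin (n + 1) → E d → ℂ} (hφ : ∀ a, MemLp (φ a) 2)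
    (ho : ∀ a b, ∫ x, φ a x * conj (φ b x) = if a = b then 1 else 0) (i : Fin (n + 1))
    (α : Perm (Fin (n + 1)) → ℂ) :
    ∫ y, ‖Phi φ i.succAbove α y‖ ^ 2 = ∑ σ, ‖α σ‖ ^ 2 := by
  have h := Phi_gram hφ ho i.succAbove α
  have h2 : ∑ σ, ∑ τ, α σ * conj (α τ) *
      (if ∀ k, σ (i.succAbove k) = τ (i.succAbove k) then (1 : ℂ) else 0) =
      ∑ σ, ((‖α σ‖ ^ 2 : ℝ) : ℂ) := by
    refine Finset.sum_congr rfl fun σ _ => ?_
    rw [Finset.sum_eq_single σ]
    · simp only [implies_true, if_true, mul_one]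
      rw [Complex.mul_conj, Complex.normSq_eq_norm_sq]
    · intro τ _ hτ
      rw [if_neg, mul_zero]
      intro hc
      exact hτ (perm_eq_one i σ τ hc).symm
    · simp
  rw [h2] at h
  exact_mod_cast h

lemma gram_two {n : ℕ} {φ : Fin (n + 2) → E d → ℂ} (hφ : ∀ a, MemLp (φ a) 2)
    (ho : ∀ a b, ∫ x, φ a x * conj (φ b x) = if a = b then 1 else 0) (i : Fin (n + 2))
    (j' : Fin (n + 1)) (α : Perm (Fin (n + 2)) → ℂ) :
    ∫ y, ‖Phi φ (fun k => i.succAbove (j'.succAbove k)) α y‖ ^ 2 =
      ∑ σ, (‖α σ‖ ^ 2 + (α σ * conj (α (σ * swap i (i.succAbove j')))).re) := by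
  have h := Phi_gram hφ ho (fun k => i.succAbove (j'.succAbove k)) α
  have h2 : ∑ σ, ∑ τ, α σ * conj (α τ) *
      (if ∀ k, σ (i.succAbove (j'.succAbove k)) = τ (i.succAbove (j'.succAbove k)) then (1 : ℂ) else 0) =
      ∑ σ, (((‖α σ‖ ^ 2 : ℝ) : ℂ) + α σ * conj (α (σ * swap i (i.succAbove j')))) := by
    refine Finset.sum_congr rfl fun σ _ => ?_
    have hne : σ ≠ σ * swap i (i.succAbove j') := by
      intro hc
      have : swap i (i.succAbove j') = 1 := by
        have := congrArg (σ⁻¹ * ·) hc
        simpa using this.symm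
      rw [swap_eq_one_iff] at this
      exact Fin.succAbove_ne _ _ this.symm
    have h3 : ∀ τ, α σ * conj (α τ) *
      (if ∀ k, σ (i.succAbove (j'.succAbove k)) = τ (i.succAbove (j'.succAbove k)) then (1 : ℂ) else 0) =
      (if τ = σ then α σ * conj (α τ) else 0) +
        (if τ = σ * swap i (i.succAbove j') then α σ * conj (α τ) else 0) := by
      intro τ
      by_cases hc : ∀ k, σ (i.succAbove (j'.succAbove k)) = τ (i.succAbove (j'.succAbove k))
      · rw [if_pos hc, mul_one]
        rcases (perm_eq_two i j' σ τ).1 hc with h4 | h4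
        · rw [if_pos h4, if_neg (by rw [h4]; exact hne), add_zero]
        · rw [if_pos h4, if_neg (by rw [h4]; exact hne.symm), zero_add]
      · rw [if_neg hc, mul_zero]
        rw [perm_eq_two] at hc
        push Not at hc
        rw [if_neg hc.1, if_neg hc.2, add_zero]
    simp_rw [h3]
    rw [Finset.sum_add_distrib]
    simp only [Finset.sum_ite_eq', Finset.mem_univ, if_true]
    rw [Complex.mul_conj, Complex.normSq_eq_norm_sq]
  rw [h2] at h
  have h4 := congrArg Complex.re h
  rw [Complex.ofReal_re, Complex.re_sum] at h4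
  rw [h4]
  refine Finset.sum_congr rfl fun σ _ => ?_
  rw [Complex.add_re, Complex.ofReal_re]

end Pool.Agent.W596.MY
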