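import Pool.Agent.W596.MY.Slater1

set_option autoImplicit false

namespace Pool.Agent.W596.MY

open MeasureTheory Filter Topology Pool.Agent.W564.MY Equiv
open scoped ENNReal ComplexConjugate

variable {d n : ℕ}

/-- insertion of a variable -/
abbrev ins (i : Fin (n + 1)) (s : E d) (y : Fin n → E d) : Fin (n + 1) → E d :=
  Fin.insertNth (α := fun _ => E d) i s y

lemma mp_ins (i : Fin (n + 1)) : MeasurePreserving (fun p : E d × (Fin n → E d) => ins i p.1 p.2)
    ((volume : Measure (E d)).prod volume) volume :=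
  (volume_preserving_piFinSuccAbove (fun _ => E d) i).symm

lemma emb_ins (i : Fin (n + 1)) :
    MeasurableEmbedding (fun p : E d × (Fin n → E d) => ins i p.1 p.2) :=
  (MeasurableEquiv.piFinSuccAbove (fun _ => E d) i).symm.measurableEmbedding

lemma lint_ins (i : Fin (n + 1)) {F : (Fin (n + 1) → E d) → ℝ≥0∞} (hF : AEMeasurable F) :
    ∫⁻ x, F x = ∫⁻ s, ∫⁻ y, F (ins i s y) := by
  rw [← (mp_ins i).lintegral_comp_emb (emb_ins i), lintegral_prod]
  exact hF.comp_quasiMeasurePreserving (mp_ins i).quasiMeasurePreserving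

/-- normalisation constant and signs -/
noncomputable def cc (N : ℕ) (σ : Perm (Fin N)) : ℂ :=
  (((Real.sqrt (N.factorial : ℝ))⁻¹ : ℝ) : ℂ) * ((Perm.sign σ : ℤ) : ℂ)

lemma norm_cc (N : ℕ) (σ : Perm (Fin N)) : ‖cc N σ‖ ^ 2 = (N.factorial : ℝ)⁻¹ := by
  rw [cc, norm_mul, mul_pow, Complex.norm_real, Real.norm_eq_abs, sq_abs, inv_pow,
    Real.sq_sqrt (by positivity)]
  have : ‖((Perm.sign σ : ℤ) : ℂ)‖ = 1 := by
    rcases Int.units_eq_one_or (Perm.sign σ) with h | h <;> simp [h]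
  rw [this]; simp

lemma cc_swap (N : ℕ) (σ : Perm (Fin N)) {i j : Fin N} (h : i ≠ j) :
    cc N (σ * swap i j) = - cc N σ := by
  simp [cc, Perm.sign_mul, Perm.sign_swap h]

/-- the orbitals in their slots, with `h` in slot `i` -/
noncomputable def U (φ : Fin (n + 1) → E d → ℂ) (i : Fin (n + 1)) (h : Fin (n + 1) → E d → ℂ)
    (σ : Perm (Fin (n + 1))) : Fin (n + 1) → E d → ℂ :=
  Fin.insertNth (α := fun _ => E d → ℂ) i (h (σ i)) (fun k => φ (σ (i.succAbove k)))

/-- Slater determinant with `h` in slot `i` -/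
noncomputable def Sl (φ : Fin (n + 1) → E d → ℂ) (i : Fin (n + 1)) (h : Fin (n + 1) → E d → ℂ)
    (x : Fin (n + 1) → E d) : ℂ := ∑ σ, cc (n + 1) σ * pr (U φ i h σ) x

/-- Slater determinant -/
noncomputable def Psi (φ : Fin (n + 1) → E d → ℂ) (x : Fin (n + 1) → E d) : ℂ :=
  ∑ σ, cc (n + 1) σ * pr (fun k => φ (σ k)) x

lemma U_self (φ : Fin (n + 1) → E d → ℂ) (i : Fin (n + 1)) (σ : Perm (Fin (n + 1))) :
    U φ i φ σ = fun k => φ (σ k) := by
  unfold U
  refine (Fin.insertNth_eq_iff).2 ⟨rfl, rfl⟩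

lemma Sl_self (φ : Fin (n + 1) → E d → ℂ) (i : Fin (n + 1)) : Sl φ i φ = Psi φ := by
  funext x
  simp only [Sl, Psi, U_self]

lemma pr_ins (i : Fin (n + 1)) (u : E d → ℂ) (v : Fin n → E d → ℂ) (s : E d) (y : Fin n → E d) :
    pr (Fin.insertNth (α := fun _ => E d → ℂ) i u v) (ins i s y) = u s * pr v y := by
  simp only [pr, ins, Fin.prod_univ_succAbove _ i, Fin.insertNth_apply_same,
    Fin.insertNth_apply_succAbove]

lemma Sl_ins (φ : Fin (n + 1) → E d → ℂ) (i : Fin (n + 1)) (h : Fin (n + 1) → E d → ℂ) (s : E d)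
    (y : Fin n → E d) :
    Sl φ i h (ins i s y) = Phi φ i.succAbove (fun σ => cc (n + 1) σ * h (σ i) s) y := by
  simp only [Sl, Phi, U, pr_ins]
  exact Finset.sum_congr rfl fun σ _ => by ring

lemma Sl_memLp {φ h : Fin (n + 1) → E d → ℂ} (hφ : ∀ a, MemLp (φ a) 2) (hh : ∀ a, MemLp (h a) 2)
    (i : Fin (n + 1)) : MemLp (Sl φ i h) 2 := by
  unfold Sl
  refine memLp_finsetSum _ fun σ _ => MemLp.const_mul ?_ _
  refine pr_memLp fun k => ?_
  unfold U
  refine Fin.succAboveCases i ?_ (fun k => ?_) k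
  · rw [Fin.insertNth_apply_same]; exact hh _
  · rw [Fin.insertNth_apply_succAbove]; exact hφ _

lemma sum_perm {N : ℕ} (f : Fin N → ℝ≥0∞) :
    ∑ i, ∑ σ : Perm (Fin N), f (σ i) = N.factorial * ∑ a, f a := by
  rw [Finset.sum_comm]
  have : ∀ σ : Perm (Fin N), ∑ i, f (σ i) = ∑ a, f a := fun σ => Equiv.sum_comp σ f
  simp [this, Fintype.card_perm]

/-- one-body formula -/
lemma one_body {φ h : Fin (n + 1) → E d → ℂ} (hφ : ∀ a, MemLp (φ a) 2) (hh : ∀ a, MemLp (h a) 2)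
    (ho : ∀ a b, ∫ x, φ a x * conj (φ b x) = if a = b then 1 else 0) (i : Fin (n + 1))
    {A : Set (E d)} (hA : MeasurableSet A) :
    ∫⁻ x in {x : Fin (n + 1) → E d | x i ∈ A}, ENNReal.ofReal (‖Sl φ i h x‖ ^ 2) =
      ((n + 1).factorial : ℝ≥0∞)⁻¹ *
        ∑ σ : Perm (Fin (n + 1)), ∫⁻ s in A, ENNReal.ofReal (‖h (σ i) s‖ ^ 2) := by
  have hAx : MeasurableSet {x : Fin (n + 1) → E d | x i ∈ A} := measurable_pi_apply i hA
  have hm : AEMeasurable (fun x => ENNReal.ofReal (‖Sl φ i h x‖ ^ 2)) volume :=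
    ((Sl_memLp hφ hh i).aestronglyMeasurable.norm.aemeasurable.pow_const 2).ennreal_ofReal
  rw [← lintegral_indicator hAx, lint_ins i (hm.indicator hAx)]
  have h1 : ∀ s, (∫⁻ y, ({x : Fin (n + 1) → E d | x i ∈ A}.indicator
      (fun x => ENNReal.ofReal (‖Sl φ i h x‖ ^ 2))) (ins i s y)) =
      A.indicator (fun s => ((n + 1).factorial : ℝ≥0∞)⁻¹ *
        ∑ σ : Perm (Fin (n + 1)), ENNReal.ofReal (‖h (σ i) s‖ ^ 2)) s := by
    intro s
    by_cases hs : s ∈ A
    · rw [Set.indicator_of_mem hs]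
      have h2 : ∀ y, ({x : Fin (n + 1) → E d | x i ∈ A}.indicator
          (fun x => ENNReal.ofReal (‖Sl φ i h x‖ ^ 2))) (ins i s y) =
          ENNReal.ofReal (‖Phi φ i.succAbove (fun σ => cc (n + 1) σ * h (σ i) s) y‖ ^ 2) := by
        intro y
        rw [Set.indicator_of_mem (by simpa using hs), Sl_ins]
      simp_rw [h2]
      rw [← ofReal_integral_eq_lintegral_ofReal (sq_integrable (Phi_memLp hφ _ _))
        (Eventually.of_forall fun y => by positivity), gram_one hφ ho]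
      simp_rw [norm_mul, mul_pow, norm_cc]
      rw [← Finset.mul_sum, ENNReal.ofReal_mul (by positivity),
        ENNReal.ofReal_sum_of_nonneg fun _ _ => by positivity, ENNReal.ofReal_inv_of_pos (by positivity)]
      simp
    · rw [Set.indicator_of_notMem hs]
      have h2 : ∀ y, ({x : Fin (n + 1) → E d | x i ∈ A}.indicator
          (fun x => ENNReal.ofReal (‖Sl φ i h x‖ ^ 2))) (ins i s y) = 0 := by
        intro y
        rw [Set.indicator_of_notMem (by simpa using hs)]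
      rw [lintegral_congr h2, lintegral_zero]
  simp_rw [h1]
  rw [lintegral_indicator hA, lintegral_const_mul', lintegral_finsetSum']
  · intro σ _
    exact ((hh _).aestronglyMeasurable.norm.aemeasurable.pow_const 2).ennreal_ofReal.restrict
  · simp [Nat.factorial_ne_zero]

lemma one_body_sum {φ h : Fin (n + 1) → E d → ℂ} (hφ : ∀ a, MemLp (φ a) 2) (hh : ∀ a, MemLp (h a) 2)
    (ho : ∀ a b, ∫ x, φ a x * conj (φ b x) = if a = b then 1 else 0)
    {A : Set (E d)} (hA : MeasurableSet A) :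
    ∑ i, ∫⁻ x in {x : Fin (n + 1) → E d | x i ∈ A}, ENNReal.ofReal (‖Sl φ i h x‖ ^ 2) =
        ∑ a, ∫⁻ s in A, ENNReal.ofReal (‖h a s‖ ^ 2) := by
  simp_rw [one_body hφ hh ho _ hA]
  rw [← Finset.mul_sum, sum_perm (fun a => ∫⁻ s in A, ENNReal.ofReal (‖h a s‖ ^ 2)), ← mul_assoc,
    ENNReal.inv_mul_cancel (by simp [Nat.factorial_ne_zero]) (by simp), one_mul]

lemma hasDensity_Psi {φ : Fin (n + 1) → E d → ℂ} (hφ : ∀ a, MemLp (φ a) 2)
    (ho : ∀ a b, ∫ x, φ a x * conj (φ b x) = if a = b then 1 else 0) :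
    HasDensity (Psi φ) (fun x => ∑ a, ENNReal.ofReal (‖φ a x‖ ^ 2)) := by
  intro A hA
  have := one_body_sum hφ hφ ho hA
  simp_rw [Sl_self] at this
  rw [this, lintegral_finsetSum']
  intro a _
  exact ((hφ _).aestronglyMeasurable.norm.aemeasurable.pow_const 2).ennreal_ofReal.restrict

lemma lint_sq {V : Type} [MeasureSpace V] {u : V → ℂ} (hu : MemLp u 2) :
    ∫⁻ x, ENNReal.ofReal (‖u x‖ ^ 2) = ENNReal.ofReal (∫ x, ‖u x‖ ^ 2) := by
  rw [ofReal_integral_eq_lintegral_ofReal (sq_integrable hu)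
        (Eventually.of_forall fun y => by positivity)]

lemma kin_sum {φ h : Fin (n + 1) → E d → ℂ} (hφ : ∀ a, MemLp (φ a) 2) (hh : ∀ a, MemLp (h a) 2)
    (ho : ∀ a b, ∫ x, φ a x * conj (φ b x) = if a = b then 1 else 0) :
    ∑ i, ∫ x, ‖Sl φ i h x‖ ^ 2 = ∑ a, ∫ s, ‖h a s‖ ^ 2 := by
  have h1 := one_body_sum hφ hh ho MeasurableSet.univ
  simp only [Set.mem_univ, Set.ofPred_true, Measure.restrict_univ] at h1
  simp_rw [lint_sq (hh _), lint_sq (Sl_memLp hφ hh _)] at h1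
  rw [← ENNReal.ofReal_sum_of_nonneg fun _ _ => integral_nonneg fun _ => by positivity,
    ← ENNReal.ofReal_sum_of_nonneg fun _ _ => integral_nonneg fun _ => by positivity] at h1
  refine (ENNReal.ofReal_eq_ofReal_iff ?_ ?_).1 h1
  · exact Finset.sum_nonneg fun _ _ => integral_nonneg fun _ => by positivity
  · exact Finset.sum_nonneg fun _ _ => integral_nonneg fun _ => by positivity

lemma norm_Psi {φ : Fin (n + 1) → E d → ℂ} (hφ : ∀ a, MemLp (φ a) 2)
    (ho : ∀ a b, ∫ x, φ a x * conj (φ b x) = if a = b then 1 else 0) :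
    ∫ x, ‖Psi φ x‖ ^ 2 = 1 := by
  have h1 := kin_sum hφ hφ ho
  simp_rw [Sl_self] at h1
  have h2 : ∀ a, ∫ s, ‖φ a s‖ ^ 2 = 1 := by
    intro a
    have := ho a a
    rw [if_pos rfl] at this
    have h3 : ∫ x, φ a x * conj (φ a x) = ((∫ s, ‖φ a s‖ ^ 2 : ℝ) : ℂ) := by
      rw [← integral_complex_ofReal]
      refine integral_congr_ae (Eventually.of_forall fun y => ?_)
      simp only
      rw [Complex.mul_conj, Complex.normSq_eq_norm_sq]
    rw [h3] at this
    exact_mod_cast this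
  simp_rw [h2] at h1
  simp only [Finset.sum_const, Finset.card_univ, Fintype.card_fin, nsmul_eq_mul, mul_one] at h1
  have h3 : ((n + 1 : ℕ) : ℝ) ≠ 0 := by positivity
  have h4 : ((n + 1 : ℕ) : ℝ) * ∫ x, ‖Psi φ x‖ ^ 2 = ((n + 1 : ℕ) : ℝ) * 1 := by rw [h1, mul_one]
  exact mul_left_cancel₀ h3 h4

lemma antisym_Psi (φ : Fin (n + 1) → E d → ℂ) : Antisym (Psi φ) := by
  intro i j hij
  refine Eventually.of_forall fun x => ?_
  simp only [Psi]
  rw [← Finset.sum_neg_distrib]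
  refine Finset.sum_nbij' (fun σ => σ * swap i j) (fun σ => σ * swap i j) ?_ ?_ ?_ ?_ ?_
  · simp
  · simp
  · intro σ _; simp [mul_assoc]
  · intro σ _; simp [mul_assoc]
  · intro σ _
    rw [cc_swap _ _ hij, neg_mul, neg_neg]
    congr 1
    simp only [pr, Function.comp]
    rw [← Equiv.prod_comp (swap i j)]
    refine Finset.prod_congr rfl fun k _ => ?_
    simp [Perm.mul_apply]

end Pool.Agent.W596.MY
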