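import Pool.Agent.W596.MY.Slater2

set_option autoImplicit false

namespace Pool.Agent.W596.MY

open MeasureTheory Filter Topology Pool.Agent.W564.MY Equiv
open scoped ENNReal ComplexConjugate

variable {d n : ℕ}

/-! ### weak derivatives -/

lemma ins_eq (i : Fin (n + 1)) (s : E d) (y : Fin n → E d) :
    ins i s y = Pi.single i s + ins i 0 y := by
  funext k
  refine Fin.succAboveCases i ?_ (fun l => ?_) k
  · simp
  · simp [Fin.succAbove_ne]

lemma hasFDerivAt_ins (i : Fin (n + 1)) (s : E d) (y : Fin n → E d) :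
    HasFDerivAt (fun t : E d => ins i t y)
      (ContinuousLinearMap.single ℝ (fun _ : Fin (n + 1) => E d) i) s := by
  have h : (fun t : E d => ins i t y) = fun t =>
      ContinuousLinearMap.single ℝ (fun _ : Fin (n + 1) => E d) i t + ins i 0 y := by
    funext t
    rw [ins_eq i t y]; rfl
  rw [h]
  exact ((ContinuousLinearMap.single ℝ (fun _ : Fin (n + 1) => E d) i).hasFDerivAt).add_const _

lemma contDiff_ins (i : Fin (n + 1)) (y : Fin n → E d) :
    ContDiff ℝ ((⊤ : ℕ∞) : WithTop ℕ∞) (fun t : E d => ins i t y) := by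
  have h : (fun t : E d => ins i t y) = fun t =>
      ContinuousLinearMap.single ℝ (fun _ : Fin (n + 1) => E d) i t + ins i 0 y := by
    funext t
    rw [ins_eq i t y]; rfl
  rw [h]
  exact (ContinuousLinearMap.contDiff _).add contDiff_const

lemma isClosedEmbedding_ins (i : Fin (n + 1)) (y : Fin n → E d) :
    Topology.IsClosedEmbedding (fun t : E d => ins i t y) := by
  refine Function.LeftInverse.isClosedEmbedding (f := fun x : Fin (n + 1) → E d => x i) ?_
    (continuous_apply i) (contDiff_ins i y).continuous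
  intro t
  simp

lemma memLp_two_of_cc {V : Type} [NormedAddCommGroup V] [MeasureSpace V] [BorelSpace V]
    [IsFiniteMeasureOnCompacts (volume : Measure V)] {f : V → ℂ} (hf : Continuous f)
    (hc : HasCompactSupport f) : MemLp f 2 :=
  hf.memLp_of_hasCompactSupport hc

lemma slot_memLp {f : E d → ℂ} {Q : (Fin n → E d) → ℂ} (hf : MemLp f 2) (hQ : MemLp Q 2)
    (i : Fin (n + 1)) : MemLp (fun x : Fin (n + 1) → E d => f (x i) * Q (fun k => x (i.succAbove k))) 2 := by
  have hae : AEStronglyMeasurable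
      (fun x : Fin (n + 1) → E d => f (x i) * Q (fun k => x (i.succAbove k))) volume := by
    have h1 := (hf.aestronglyMeasurable.comp_fst (ν := (volume : Measure (Fin n → E d)))).mul
      (hQ.aestronglyMeasurable.comp_snd (μ := (volume : Measure (E d))))
    have h2 := h1.comp_quasiMeasurePreserving
      (volume_preserving_piFinSuccAbove (fun _ => E d) i).quasiMeasurePreserving
    exact h2
  rw [memLp_two_iff_integrable_sq_norm hae, ← (mp_ins i).integrable_comp_emb (emb_ins i)]
  have h3 : Integrable (fun p : E d × (Fin n → E d) => ‖f p.1‖ ^ 2 * ‖Q p.2‖ ^ 2)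
      ((volume : Measure (E d)).prod volume) := (sq_integrable hf).mul_prod (sq_integrable hQ)
  refine h3.congr (Eventually.of_forall fun p => ?_)
  simp [mul_pow]

/-- weak derivative in one slot -/
lemma weak_slot (i : Fin (n + 1)) (v : E d) {f f' : E d → ℂ} {Q : (Fin n → E d) → ℂ}
    (hf : MemLp f 2) (hf' : MemLp f' 2) (hQ : MemLp Q 2) (hw : WeakDir v f f') :
    WeakDir (Pi.single i v : Fin (n + 1) → E d)
      (fun x => f (x i) * Q (fun k => x (i.succAbove k)))
      (fun x => f' (x i) * Q (fun k => x (i.succAbove k))) := by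
  intro φ hφ hc
  have hDc : Continuous fun x => fderiv ℝ φ x (Pi.single i v) :=
    (hφ.continuous_fderiv (by simp)).clm_apply continuous_const
  have hDs : HasCompactSupport fun x => fderiv ℝ φ x (Pi.single i v) :=
    hc.fderiv_apply ℝ _
  have i1 : Integrable fun x : Fin (n + 1) → E d =>
      f (x i) * Q (fun k => x (i.succAbove k)) * fderiv ℝ φ x (Pi.single i v) :=
    (slot_memLp hf hQ i).integrable_mul (q := 2) (memLp_two_of_cc hDc hDs)
  have i2 : Integrable fun x : Fin (n + 1) → E d =>
      f' (x i) * Q (fun k => x (i.succAbove k)) * φ x :=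
    (slot_memLp hf' hQ i).integrable_mul (q := 2) (memLp_two_of_cc hφ.continuous hc)
  rw [← (mp_ins i).integral_comp (emb_ins i), ← (mp_ins i).integral_comp (emb_ins i)]
  rw [← (mp_ins i).integrable_comp_emb (emb_ins i)] at i1 i2
  change Integrable (fun p : E d × (Fin n → E d) => f (ins i p.1 p.2 i) *
    Q (fun k => ins i p.1 p.2 (i.succAbove k)) * fderiv ℝ φ (ins i p.1 p.2) (Pi.single i v)) _ at i1
  change Integrable (fun p : E d × (Fin n → E d) => f' (ins i p.1 p.2 i) *
    Q (fun k => ins i p.1 p.2 (i.succAbove k)) * φ (ins i p.1 p.2)) _ at i2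
  beta_reduce
  rw [integral_prod_symm _ i1, integral_prod_symm _ i2, ← integral_neg]
  refine integral_congr_ae (Eventually.of_forall fun y => ?_)
  simp only [Fin.insertNth_apply_same, Fin.insertNth_apply_succAbove]
  have hs := hw (fun t => φ (ins i t y)) (hφ.comp (contDiff_ins i y))
    (hc.comp_isClosedEmbedding (isClosedEmbedding_ins i y))
  have hfd : ∀ t, fderiv ℝ (fun t => φ (ins i t y)) t v = fderiv ℝ φ (ins i t y) (Pi.single i v) := by
    intro t
    have h1 : HasFDerivAt (fun t => φ (ins i t y)) _ t :=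
      ((hφ.differentiable (by simp)).differentiableAt.hasFDerivAt (x := ins i t y)).comp t
        (hasFDerivAt_ins i t y)
    rw [h1.fderiv]
    rfl
  simp_rw [hfd] at hs
  have e1 : ∀ t, f t * Q y * fderiv ℝ φ (ins i t y) (Pi.single i v) =
      Q y * (f t * fderiv ℝ φ (ins i t y) (Pi.single i v)) := fun t => by ring
  have e2 : ∀ t, f' t * Q y * φ (ins i t y) = Q y * (f' t * φ (ins i t y)) := fun t => by ring
  simp_rw [e1, e2]
  rw [integral_const_mul, integral_const_mul, hs]
  ring

lemma weak_sum {V : Type} [NormedAddCommGroup V] [NormedSpace ℝ V] [MeasureSpace V] [BorelSpace V]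
    [IsFiniteMeasureOnCompacts (volume : Measure V)] {ι : Type} (S : Finset ι) (v : V)
    (c : ι → ℂ) (u g : ι → V → ℂ) (hu : ∀ a, MemLp (u a) 2) (hg : ∀ a, MemLp (g a) 2)
    (hw : ∀ a, WeakDir v (u a) (g a)) :
    WeakDir v (fun x => ∑ a ∈ S, c a * u a x) (fun x => ∑ a ∈ S, c a * g a x) := by
  intro φ hφ hc
  have hDc : Continuous fun x => fderiv ℝ φ x v :=
    (hφ.continuous_fderiv (by simp)).clm_apply continuous_const
  have hDs : HasCompactSupport fun x => fderiv ℝ φ x v :=
    hc.fderiv_apply ℝ _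
  have i1 : ∀ a ∈ S, Integrable fun x => c a * (u a x * fderiv ℝ φ x v) := fun a _ =>
    Integrable.const_mul ((hu a).integrable_mul (q := 2) (memLp_two_of_cc hDc hDs)) _
  have i2 : ∀ a ∈ S, Integrable fun x => c a * (g a x * φ x) := fun a _ =>
    Integrable.const_mul ((hg a).integrable_mul (q := 2) (memLp_two_of_cc hφ.continuous hc)) _
  have e1 : ∀ x, (∑ a ∈ S, c a * u a x) * fderiv ℝ φ x v = ∑ a ∈ S, c a * (u a x * fderiv ℝ φ x v) := by
    intro x; rw [Finset.sum_mul]; exact Finset.sum_congr rfl fun a _ => by ring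
  have e2 : ∀ x, (∑ a ∈ S, c a * g a x) * φ x = ∑ a ∈ S, c a * (g a x * φ x) := by
    intro x; rw [Finset.sum_mul]; exact Finset.sum_congr rfl fun a _ => by ring
  simp_rw [e1, e2]
  rw [integral_finsetSum _ i1, integral_finsetSum _ i2, ← Finset.sum_neg_distrib]
  refine Finset.sum_congr rfl fun a _ => ?_
  rw [integral_const_mul, integral_const_mul, hw a φ hφ hc]
  ring

lemma pr_U (φ : Fin (n + 1) → E d → ℂ) (i : Fin (n + 1)) (h : Fin (n + 1) → E d → ℂ)
    (σ : Perm (Fin (n + 1))) (x : Fin (n + 1) → E d) :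
    pr (U φ i h σ) x = h (σ i) (x i) * pr (fun k => φ (σ (i.succAbove k))) (fun k => x (i.succAbove k)) := by
  simp only [pr, U, Fin.prod_univ_succAbove _ i, Fin.insertNth_apply_same,
    Fin.insertNth_apply_succAbove]

lemma isH1N_Psi {φ : Fin (n + 1) → E d → ℂ} {g : Fin (n + 1) → Fin d → E d → ℂ}
    (hφ : ∀ a, IsH1 (φ a) (g a)) :
    IsH1N (Psi φ) (fun i c => Sl φ i (fun a => g a c)) := by
  refine ⟨?_, fun i c => Sl_memLp (fun a => (hφ a).1) (fun a => (hφ a).2.1 c) i, fun i c => ?_⟩
  · rw [← Sl_self φ 0]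
    exact Sl_memLp (fun a => (hφ a).1) (fun a => (hφ a).1) 0
  · have e : Psi φ = fun x => ∑ σ ∈ Finset.univ, cc (n + 1) σ *
        (φ (σ i) (x i) * pr (fun k => φ (σ (i.succAbove k))) (fun k => x (i.succAbove k))) := by
      rw [← Sl_self φ i]
      funext x
      simp only [Sl, pr_U]
    have e2 : Sl φ i (fun a => g a c) = fun x => ∑ σ ∈ Finset.univ, cc (n + 1) σ *
        (g (σ i) c (x i) * pr (fun k => φ (σ (i.succAbove k))) (fun k => x (i.succAbove k))) := by
      funext x
      simp only [Sl, pr_U]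
    show WeakDir _ (Psi φ) (Sl φ i (fun a => g a c))
    rw [e, e2]
    have hQ : ∀ σ : Perm (Fin (n + 1)), MemLp (pr (fun k => φ (σ (i.succAbove k)))) 2 := fun σ =>
      pr_memLp fun k => (hφ _).1
    exact weak_sum Finset.univ _ _ _ _ (fun σ => slot_memLp (hφ _).1 (hQ σ) i)
      (fun σ => slot_memLp ((hφ _).2.1 c) (hQ σ) i)
      (fun σ => weak_slot i _ (hφ _).1 ((hφ _).2.1 c) (hQ σ) ((hφ _).2.2 c))

end Pool.Agent.W596.MY
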